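import Pool.Agent.K9h8.Lc.Def

/-!
# Nondegenerate quadratic forms in three variables over finite fields
-/

set_option autoImplicit false
set_option linter.all false

namespace Pool.Agent.K9h8.Lc

open scoped Classical

section ring

variable {F : Type*} [CommRing F]

theorem sb_mul (h g : Matrix (Fin 3) (Fin 3) F) (a : Fin 6 → F) : sb (h * g) a = sb g (sb h a) := by
  funext i
  fin_cases i <;>
  · simp only [sb, qd, pl, Matrix.col_apply, Matrix.mul_apply, Fin.sum_univ_three,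
      Matrix.cons_val_zero, Matrix.cons_val_one, Matrix.cons_val, Fin.zero_eta, Fin.mk_one,
      Fin.reduceFinMk]
    ring

theorem sb_one (a : Fin 6 → F) : sb 1 a = a := by
  funext i
  fin_cases i <;> simp [sb, qd, pl, Matrix.col_apply, Matrix.one_apply]

theorem sb_smul (g : Matrix (Fin 3) (Fin 3) F) (u : F) (a : Fin 6 → F) : sb g (u • a) = u • sb g a := by
  funext i
  fin_cases i <;>
  · simp only [sb, qd, pl, Pi.smul_apply, smul_eq_mul,
      Matrix.cons_val_zero, Matrix.cons_val_one, Matrix.cons_val, Fin.zero_eta, Fin.mk_one,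
      Fin.reduceFinMk]
    ring

end ring

theorem sb_inj {F : Type*} [Field F] {g : Matrix (Fin 3) (Fin 3) F} (hg : g.det ≠ 0) :
    Function.Injective (sb g) := by
  have hgh : g * g⁻¹ = 1 := Matrix.mul_nonsing_inv g (isUnit_iff_ne_zero.2 hg)
  intro a b h
  have h1 := congrArg (sb g⁻¹) h
  rwa [← sb_mul, ← sb_mul, hgh, sb_one, sb_one] at h1

/-- A nontrivial zero. -/
theorem exists_zero {F : Type*} [Field F] [Finite F] (a : Fin 6 → F) : ∃ v : Fin 3 → F, v ≠ 0 ∧ qd a v = 0 := by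
  letI := Fintype.ofFinite F
  obtain ⟨p, hp⟩ := CharP.exists F
  haveI : Fact p.Prime := ⟨CharP.char_is_prime F p⟩
  let f : MvPolynomial (Fin 3) F := MvPolynomial.C (a 0) * MvPolynomial.X 0 ^ 2 +
    MvPolynomial.C (a 1) * (MvPolynomial.X 0 * MvPolynomial.X 1) +
    MvPolynomial.C (a 2) * (MvPolynomial.X 0 * MvPolynomial.X 2) +
    MvPolynomial.C (a 3) * MvPolynomial.X 1 ^ 2 +
    MvPolynomial.C (a 4) * (MvPolynomial.X 1 * MvPolynomial.X 2) +
    MvPolynomial.C (a 5) * MvPolynomial.X 2 ^ 2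
  have hf : f.IsHomogeneous 2 := by
    have h1 : ∀ (x : F) (i : Fin 3),
        (MvPolynomial.C x * MvPolynomial.X i ^ 2 : MvPolynomial (Fin 3) F).IsHomogeneous 2 := fun x i => by
      simpa using (MvPolynomial.isHomogeneous_C (Fin 3) x).mul ((MvPolynomial.isHomogeneous_X F i).pow 2)
    have h2 : ∀ (x : F) (i j : Fin 3),
        (MvPolynomial.C x * (MvPolynomial.X i * MvPolynomial.X j) :
          MvPolynomial (Fin 3) F).IsHomogeneous 2 := fun x i j => by
      simpa using (MvPolynomial.isHomogeneous_C (Fin 3) x).mul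
        ((MvPolynomial.isHomogeneous_X F i).mul (MvPolynomial.isHomogeneous_X F j))
    exact (((((h1 _ 0).add (h2 _ 0 1)).add (h2 _ 0 2)).add (h1 _ 1)).add (h2 _ 1 2)).add (h1 _ 2)
  have hdeg : f.totalDegree < Fintype.card (Fin 3) := by
    rw [Fintype.card_fin]
    have := hf.totalDegree_le
    omega
  have hev : ∀ v : Fin 3 → F, MvPolynomial.eval v f = qd a v := by
    intro v
    simp [f, qd]
  have h1 := char_dvd_card_solutions p hdeg
  have h0 : MvPolynomial.eval (0 : Fin 3 → F) f = 0 := by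
    rw [hev]
    simp [qd]
  by_contra hcon
  push Not at hcon
  have h2 : Fintype.card {x : Fin 3 → F // MvPolynomial.eval x f = 0} = 1 := by
    rw [Fintype.card_eq_one_iff]
    refine ⟨⟨0, h0⟩, ?_⟩
    rintro ⟨y, hy⟩
    apply Subtype.ext
    by_contra hne
    exact hcon y hne (by rw [← hev]; exact hy)
  rw [h2] at h1
  exact (Fact.out : p.Prime).one_lt.ne' (Nat.dvd_one.1 h1)

theorem qd_add_smul {F : Type*} [CommRing F] (a : Fin 6 → F) (v w : Fin 3 → F) (s : F) :
    qd a (fun i => v i + s * w i) = qd a v + s * pl a w v + s ^ 2 * qd a w := by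
  simp only [qd, pl]
  ring

theorem pl_add_smul {F : Type*} [CommRing F] (a : Fin 6 → F) (v w z : Fin 3 → F) (s : F) :
    pl a z (fun i => v i + s * w i) = pl a z v + s * pl a z w := by
  simp only [pl]
  ring

theorem pl_self {F : Type*} [CommRing F] (a : Fin 6 → F) (v : Fin 3 → F) : pl a v v = 2 * qd a v := by
  simp only [qd, pl]
  ring

/-- A nondegenerate quadratic form in three variables over a finite field of odd characteristic is equivalent to a
multiple of `v 1 ^ 2 - v 0 * v 2`. -/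
theorem classify {F : Type*} [Field F] [Finite F] (h2 : (2 : F) ≠ 0) {a : Fin 6 → F} (ha : dsc a ≠ 0) :
    ∃ (g : Matrix (Fin 3) (Fin 3) F) (u : F), g.det ≠ 0 ∧ u ≠ 0 ∧ a = u • sb g (st F) := by
  obtain ⟨e0, he0, hq0⟩ := exists_zero a
  -- a vector which is not orthogonal to `e0`
  obtain ⟨w, hw⟩ : ∃ w : Fin 3 → F, pl a e0 w ≠ 0 := by
    by_contra hcon
    push Not at hcon
    have h0 := hcon ![1, 0, 0]
    have h1 := hcon ![0, 1, 0]
    have h3 := hcon ![0, 0, 1]
    simp only [pl, Matrix.cons_val_zero, Matrix.cons_val_one, Matrix.cons_val] at h0 h1 h3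
    apply he0
    have hd : 2 * dsc a ≠ 0 := mul_ne_zero h2 ha
    funext i
    fin_cases i
    · apply mul_left_cancel₀ hd
      simp only [dsc, Fin.zero_eta, Pi.zero_apply, mul_zero]
      linear_combination (4 * a 3 * a 5 - a 4 ^ 2) * h0 + (a 2 * a 4 - 2 * a 1 * a 5) * h1 +
        (a 1 * a 4 - 2 * a 2 * a 3) * h3
    · apply mul_left_cancel₀ hd
      simp only [dsc, Fin.mk_one, Pi.zero_apply, mul_zero]
      linear_combination (a 2 * a 4 - 2 * a 1 * a 5) * h0 + (4 * a 0 * a 5 - a 2 ^ 2) * h1 +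
        (a 1 * a 2 - 2 * a 0 * a 4) * h3
    · apply mul_left_cancel₀ hd
      simp only [dsc, Fin.reduceFinMk, Pi.zero_apply, mul_zero]
      linear_combination (a 1 * a 4 - 2 * a 2 * a 3) * h0 + (a 1 * a 2 - 2 * a 0 * a 4) * h1 +
        (4 * a 0 * a 3 - a 1 ^ 2) * h3
  -- a hyperbolic pair
  obtain ⟨e2, hq2, hp2⟩ : ∃ e2 : Fin 3 → F, qd a e2 = 0 ∧ pl a e0 e2 = 1 := by
    obtain ⟨c, hc⟩ : ∃ c : F, c = (pl a e0 w)⁻¹ := ⟨_, rfl⟩
    have hcw : c * pl a e0 w = 1 := by rw [hc, inv_mul_cancel₀ hw]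
    have h4 : pl a e0 (fun i => c * w i) = 1 := by
      rw [← hcw]
      simp only [pl]
      ring
    refine ⟨fun i => c * w i + (-qd a (fun i => c * w i)) * e0 i, ?_, ?_⟩
    · have h5 := qd_add_smul a (fun i => c * w i) e0 (-qd a (fun i => c * w i))
      rw [h5, h4, hq0]
      ring
    · have h5 := pl_add_smul a (fun i => c * w i) e0 e0 (-qd a (fun i => c * w i))
      rw [h5, h4, pl_self, hq0]
      ring
  -- the linear forms of the two vectors
  obtain ⟨L, hL⟩ : ∃ L : (Fin 3 → F) → Fin 3 → F, ∀ v, L v = ![2 * a 0 * v 0 + a 1 * v 1 + a 2 * v 2,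
      a 1 * v 0 + 2 * a 3 * v 1 + a 4 * v 2, a 2 * v 0 + a 4 * v 1 + 2 * a 5 * v 2] := ⟨_, fun v => rfl⟩
  have hpl : ∀ v z : Fin 3 → F, pl a v z = L v 0 * z 0 + L v 1 * z 1 + L v 2 * z 2 := by
    intro v z
    rw [hL]
    simp only [pl, Matrix.cons_val_zero, Matrix.cons_val_one, Matrix.cons_val]
    ring
  obtain ⟨e1, he1⟩ : ∃ e1 : Fin 3 → F, e1 = ![L e0 1 * L e2 2 - L e0 2 * L e2 1,
      L e0 2 * L e2 0 - L e0 0 * L e2 2, L e0 0 * L e2 1 - L e0 1 * L e2 0] := ⟨_, rfl⟩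
  have e10 : e1 0 = L e0 1 * L e2 2 - L e0 2 * L e2 1 := by rw [he1]; rfl
  have e11 : e1 1 = L e0 2 * L e2 0 - L e0 0 * L e2 2 := by rw [he1]; rfl
  have e12 : e1 2 = L e0 0 * L e2 1 - L e0 1 * L e2 0 := by rw [he1]; rfl
  have h01 : pl a e0 e1 = 0 := by
    rw [hpl, e10, e11, e12]; ring
  have h21 : pl a e2 e1 = 0 := by
    rw [hpl, e10, e11, e12]; ring
  have h12 : pl a e1 e2 = 0 := by
    rw [← h21]
    simp only [pl]
    ring
  have h20 : pl a e2 e0 = 1 := by
    rw [← hp2]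
    simp only [pl]
    ring
  obtain ⟨u, hu⟩ : ∃ u : F, u = qd a e1 := ⟨_, rfl⟩
  -- the determinant
  have hdet : e0 0 * (e1 1 * e2 2 - e2 1 * e1 2) - e1 0 * (e0 1 * e2 2 - e2 1 * e0 2) +
      e2 0 * (e0 1 * e1 2 - e1 1 * e0 2) = 1 := by
    have h5 : e0 0 * (e1 1 * e2 2 - e2 1 * e1 2) - e1 0 * (e0 1 * e2 2 - e2 1 * e0 2) +
        e2 0 * (e0 1 * e1 2 - e1 1 * e0 2) = pl a e0 e2 * pl a e2 e0 - pl a e0 e0 * pl a e2 e2 := by
      rw [hpl, hpl, hpl, hpl, e10, e11, e12]
      ring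
    rw [h5, hp2, h20, pl_self, hq0]
    ring
  obtain ⟨h, hh⟩ : ∃ h : Matrix (Fin 3) (Fin 3) F,
      h = Matrix.of fun i j => (![-u * e0 i, e1 i, e2 i] : Fin 3 → F) j := ⟨_, rfl⟩
  have hc0 : h.col 0 = fun i => 0 + -u * e0 i := by
    funext i; rw [hh]; simp [Matrix.col_apply]
  have hc1 : h.col 1 = e1 := by
    funext i; rw [hh]; simp [Matrix.col_apply]
  have hc2 : h.col 2 = e2 := by
    funext i; rw [hh]; simp [Matrix.col_apply]
  have hsb : sb h a = u • st F := by
    have k0 : qd a (h.col 0) = 0 := by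
      rw [hc0]
      have := qd_add_smul a (fun _ => 0) e0 (-u)
      rw [this, hq0]
      simp [qd, pl]
    have k1 : pl a (h.col 0) (h.col 1) = 0 := by
      rw [hc0, hc1]
      have : pl a (fun i => 0 + -u * e0 i) e1 = -u * pl a e0 e1 := by
        simp only [pl]; ring
      rw [this, h01, mul_zero]
    have k2 : pl a (h.col 0) (h.col 2) = -u := by
      rw [hc0, hc2]
      have : pl a (fun i => 0 + -u * e0 i) e2 = -u * pl a e0 e2 := by
        simp only [pl]; ring
      rw [this, hp2, mul_one]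
    have k3 : qd a (h.col 1) = u := by rw [hc1, hu]
    have k4 : pl a (h.col 1) (h.col 2) = 0 := by rw [hc1, hc2, h12]
    have k5 : qd a (h.col 2) = 0 := by rw [hc2, hq2]
    rw [sb, k0, k1, k2, k3, k4, k5]
    funext i
    fin_cases i <;> simp [st]
  have hu0 : u ≠ 0 := by
    intro h0
    -- the discriminant of the form in the basis `e0, e1, e2`
    obtain ⟨h', hh'⟩ : ∃ h' : Matrix (Fin 3) (Fin 3) F,
        h' = Matrix.of fun i j => (![e0 i, e1 i, e2 i] : Fin 3 → F) j := ⟨_, rfl⟩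
    have d0 : h'.col 0 = e0 := by funext i; rw [hh']; simp [Matrix.col_apply]
    have d1 : h'.col 1 = e1 := by funext i; rw [hh']; simp [Matrix.col_apply]
    have d2 : h'.col 2 = e2 := by funext i; rw [hh']; simp [Matrix.col_apply]
    have hsb' : sb h' a = ![0, 0, 1, u, 0, 0] := by
      rw [sb, d0, d1, d2, hq0, h01, hp2, ← hu, h12, hq2]
    have hdd : dsc (sb h' a) = h'.det ^ 2 * dsc a := by
      rw [Matrix.det_fin_three]
      simp only [dsc, sb, qd, pl, Matrix.cons_val_zero, Matrix.cons_val_one, Matrix.cons_val,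
        Matrix.col_apply]
      ring
    have hdet' : h'.det = 1 := by
      rw [Matrix.det_fin_three, hh']
      simp only [Matrix.of_apply, Matrix.cons_val_zero, Matrix.cons_val_one, Matrix.cons_val]
      linear_combination hdet
    rw [hsb', hdet', h0] at hdd
    apply ha
    have : dsc (![0, 0, 1, 0, 0, 0] : Fin 6 → F) = 0 := by
      simp [dsc]
    rw [this] at hdd
    rw [one_pow, one_mul] at hdd
    exact hdd.symm
  have hdh : h.det ≠ 0 := by
    have h5 : h.det = -u := by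
      rw [Matrix.det_fin_three, hh]
      simp only [Matrix.of_apply, Matrix.cons_val_zero, Matrix.cons_val_one, Matrix.cons_val]
      linear_combination (-u) * hdet
    rw [h5]
    exact neg_ne_zero.2 hu0
  have hhg : h * h⁻¹ = 1 := Matrix.mul_nonsing_inv h (isUnit_iff_ne_zero.2 hdh)
  refine ⟨h⁻¹, u, ?_, hu0, ?_⟩
  · intro h0
    have h5 := congrArg Matrix.det hhg
    rw [Matrix.det_mul, h0, mul_zero, Matrix.det_one] at h5
    exact zero_ne_one h5
  · rw [← sb_smul, ← hsb, ← sb_mul, hhg, sb_one]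

/-- There are few degenerate forms. -/
theorem card_degenerate {F : Type*} [Field F] [Fintype F] (h2 : (2 : F) ≠ 0) :
    {a : Fin 6 → F | dsc a = 0}.ncard ≤ 3 * Fintype.card F ^ 5 := by
  have h4 : (4 : F) ≠ 0 := by
    have : (4 : F) = 2 * 2 := by norm_num
    rw [this]
    exact mul_ne_zero h2 h2
  have hc : Fintype.card (Fin 5 → F) = Fintype.card F ^ 5 := by
    rw [Fintype.card_fun, Fintype.card_fin]
  -- a set on which five of the coefficients determine the form is small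
  have key : ∀ (S : Set (Fin 6 → F)) (φ : (Fin 6 → F) → (Fin 5 → F)), Set.InjOn φ S →
      S.ncard ≤ Fintype.card F ^ 5 := by
    intro S φ hφ
    rw [← hc, ← Nat.card_eq_fintype_card, ← Set.ncard_univ]
    exact Set.ncard_le_ncard_of_injOn φ (fun _ _ => Set.mem_univ _) hφ (Set.toFinite _)
  have s1 := key {a | dsc a = 0 ∧ 4 * a 3 * a 5 - a 4 ^ 2 ≠ 0} (fun a => ![a 1, a 2, a 3, a 4, a 5]) (by
    rintro a ⟨ha, ha'⟩ b ⟨hb, hb'⟩ hab
    have t1 : a 1 = b 1 := congrFun hab 0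
    have t2 : a 2 = b 2 := congrFun hab 1
    have t3 : a 3 = b 3 := congrFun hab 2
    have t4 : a 4 = b 4 := congrFun hab 3
    have t5 : a 5 = b 5 := congrFun hab 4
    have t0 : a 0 = b 0 := by
      apply mul_right_cancel₀ ha'
      simp only [dsc] at ha hb
      rw [← t1, ← t2, ← t3, ← t4, ← t5] at hb
      linear_combination ha - hb
    funext i
    fin_cases i <;> assumption)
  have s2 := key {a | 4 * a 3 * a 5 - a 4 ^ 2 = 0 ∧ a 5 ≠ 0} (fun a => ![a 0, a 1, a 2, a 4, a 5]) (by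
    rintro a ⟨ha, ha'⟩ b ⟨hb, hb'⟩ hab
    have t0 : a 0 = b 0 := congrFun hab 0
    have t1 : a 1 = b 1 := congrFun hab 1
    have t2 : a 2 = b 2 := congrFun hab 2
    have t4 : a 4 = b 4 := congrFun hab 3
    have t5 : a 5 = b 5 := congrFun hab 4
    have t3 : a 3 = b 3 := by
      apply mul_right_cancel₀ (mul_ne_zero h4 ha')
      rw [← t4, ← t5] at hb
      linear_combination ha - hb
    funext i
    fin_cases i <;> assumption)
  have s3 := key {a | 4 * a 3 * a 5 - a 4 ^ 2 = 0 ∧ a 5 = 0} (fun a => ![a 0, a 1, a 2, a 3, a 5]) (by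
    rintro a ⟨ha, ha'⟩ b ⟨hb, hb'⟩ hab
    have t0 : a 0 = b 0 := congrFun hab 0
    have t1 : a 1 = b 1 := congrFun hab 1
    have t2 : a 2 = b 2 := congrFun hab 2
    have t3 : a 3 = b 3 := congrFun hab 3
    have t5 : a 5 = b 5 := congrFun hab 4
    have t4 : a 4 = b 4 := by
      have u1 : a 4 ^ 2 = 0 := by rw [ha'] at ha; linear_combination -ha
      have u2 : b 4 ^ 2 = 0 := by rw [hb'] at hb; linear_combination -hb
      rw [pow_eq_zero_iff two_ne_zero |>.1 u1, pow_eq_zero_iff two_ne_zero |>.1 u2]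
    funext i
    fin_cases i <;> assumption)
  have hsub : {a : Fin 6 → F | dsc a = 0} ⊆ {a | dsc a = 0 ∧ 4 * a 3 * a 5 - a 4 ^ 2 ≠ 0} ∪
      ({a | 4 * a 3 * a 5 - a 4 ^ 2 = 0 ∧ a 5 ≠ 0} ∪ {a | 4 * a 3 * a 5 - a 4 ^ 2 = 0 ∧ a 5 = 0}) := by
    intro a ha
    by_cases h5 : 4 * a 3 * a 5 - a 4 ^ 2 = 0
    · by_cases h6 : a 5 = 0
      · exact Or.inr (Or.inr ⟨h5, h6⟩)
      · exact Or.inr (Or.inl ⟨h5, h6⟩)
    · exact Or.inl ⟨ha, h5⟩
  have h5 := Set.ncard_le_ncard hsub (Set.toFinite _)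
  have h6 := Set.ncard_union_le {a : Fin 6 → F | dsc a = 0 ∧ 4 * a 3 * a 5 - a 4 ^ 2 ≠ 0}
    ({a | 4 * a 3 * a 5 - a 4 ^ 2 = 0 ∧ a 5 ≠ 0} ∪ {a | 4 * a 3 * a 5 - a 4 ^ 2 = 0 ∧ a 5 = 0})
  have h7 := Set.ncard_union_le {a : Fin 6 → F | 4 * a 3 * a 5 - a 4 ^ 2 = 0 ∧ a 5 ≠ 0}
    {a | 4 * a 3 * a 5 - a 4 ^ 2 = 0 ∧ a 5 = 0}
  omega

/-- The pencil spanned by a form and the standard conic has few degenerate members. -/
theorem card_pencil {F : Type*} [Field F] [Fintype F] (b : Fin 6 → F) :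
    {t : F | dsc (b + t • st F) = 0}.ncard ≤ 3 := by
  obtain ⟨P, hP⟩ : ∃ P : Polynomial F, P = Polynomial.C (-1) * Polynomial.X ^ 3 +
      Polynomial.C (-(b 3 - 2 * b 2)) * Polynomial.X ^ 2 +
      Polynomial.C (4 * b 0 * b 5 - b 1 * b 4 - b 2 ^ 2 + 2 * b 2 * b 3) * Polynomial.X +
      Polynomial.C (dsc b) := ⟨_, rfl⟩
  have hdeg : P.natDegree = 3 := by
    rw [hP]
    exact Polynomial.natDegree_cubic (neg_ne_zero.2 one_ne_zero)
  have hP0 : P ≠ 0 := by
    intro h0
    rw [h0, Polynomial.natDegree_zero] at hdeg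
    exact absurd hdeg (by norm_num)
  have h1 : {t : F | dsc (b + t • st F) = 0} ⊆ (P.roots.toFinset : Set F) := by
    intro t ht
    rw [Finset.mem_coe, Multiset.mem_toFinset, Polynomial.mem_roots hP0, Polynomial.IsRoot.def, hP]
    have ht' : dsc (b + t • st F) = 0 := ht
    simp only [dsc, st, Pi.add_apply, Pi.smul_apply, smul_eq_mul, Matrix.cons_val_zero, Matrix.cons_val_one,
      Matrix.cons_val] at ht'
    simp only [Polynomial.eval_add, Polynomial.eval_mul, Polynomial.eval_C, Polynomial.eval_pow,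
      Polynomial.eval_X, dsc]
    linear_combination ht'
  refine (Set.ncard_le_ncard h1 (Finset.finite_toSet _)).trans ?_
  rw [Set.ncard_coe_finset]
  exact (Multiset.toFinset_card_le _).trans ((Polynomial.card_roots' _).trans hdeg.le)

end Pool.Agent.K9h8.Lc
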