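import Mathlib

/-!
# Nonsquare values of a quadratic polynomial
-/

set_option autoImplicit false
set_option linter.all false

namespace Pool.Agent.K9h8.Lc

open scoped Classical

/-- The points of the conic `y ^ 2 = A t ^ 2 + D`, `A` a nonsquare, `D ≠ 0`: at most `q + 2`. -/
theorem conic_card {F : Type*} [Field F] [Fintype F] (h2 : (2 : F) ≠ 0) {A D : F} (hA : ¬ IsSquare A)
    (hD : D ≠ 0) :
    (Finset.univ.filter fun x : F × F => x.1 ^ 2 = A * x.2 ^ 2 + D).card ≤ Fintype.card F + 2 := by
  set S := Finset.univ.filter fun x : F × F => x.1 ^ 2 = A * x.2 ^ 2 + D with hS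
  by_cases hne : S.Nonempty
  · obtain ⟨x0, hx0⟩ := hne
    rw [hS, Finset.mem_filter] at hx0
    have hx0' := hx0.2
    -- slopes
    have hcard : (S.erase x0).card ≤ Fintype.card (Option F) := by
      rw [← Finset.card_univ]
      refine Finset.card_le_card_of_injOn
        (fun x => if x.2 = x0.2 then none else some ((x.1 - x0.1) / (x.2 - x0.2)))
        (fun _ _ => Finset.mem_coe.2 (Finset.mem_univ _)) ?_
      intro x hx y hy hxy
      rw [Finset.mem_coe, Finset.mem_erase, hS, Finset.mem_filter] at hx hy
      obtain ⟨hxne, -, hx⟩ := hx
      obtain ⟨hyne, -, hy⟩ := hy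
      simp only at hxy
      split_ifs at hxy with h1 h3 h3
      · -- both on the vertical line
        have e1 : x.1 = - x0.1 := by
          have : (x.1 - x0.1) * (x.1 + x0.1) = 0 := by
            rw [h1] at hx
            linear_combination hx - hx0'
          rcases mul_eq_zero.1 this with h | h
          · exact absurd (Prod.ext (sub_eq_zero.1 h) h1) hxne
          · exact eq_neg_of_add_eq_zero_left h
        have e2 : y.1 = - x0.1 := by
          have : (y.1 - x0.1) * (y.1 + x0.1) = 0 := by
            rw [h3] at hy
            linear_combination hy - hx0'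
          rcases mul_eq_zero.1 this with h | h
          · exact absurd (Prod.ext (sub_eq_zero.1 h) h3) hyne
          · exact eq_neg_of_add_eq_zero_left h
        exact Prod.ext (e1.trans e2.symm) (h1.trans h3.symm)
      · have hxy' := Option.some.inj hxy
        set s := (x.1 - x0.1) / (x.2 - x0.2) with hs
        have hxs : x.1 - x0.1 = s * (x.2 - x0.2) := by
          rw [hs, div_mul_cancel₀ _ (sub_ne_zero.2 h1)]
        have hys : y.1 - x0.1 = s * (y.2 - x0.2) := by
          rw [hxy', div_mul_cancel₀ _ (sub_ne_zero.2 h3)]
        have hsA : s ^ 2 - A ≠ 0 := by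
          intro h
          exact hA ⟨s, by linear_combination -h⟩
        have key : ∀ z : F × F, z.2 ≠ x0.2 → z.1 ^ 2 = A * z.2 ^ 2 + D → z.1 - x0.1 = s * (z.2 - x0.2) →
            (s ^ 2 - A) * (z.2 - x0.2) = 2 * (A * x0.2 - s * x0.1) := by
          intro z hz hz1 hz2
          apply mul_right_cancel₀ (sub_ne_zero.2 hz)
          have e : z.1 = x0.1 + s * (z.2 - x0.2) := by linear_combination hz2
          rw [e] at hz1
          linear_combination hz1 - hx0'
        have e3 : x.2 = y.2 := by
          have e4 := (key x h1 hx hxs).trans (key y h3 hy hys).symm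
          have e5 := mul_left_cancel₀ hsA e4
          exact sub_left_inj.1 e5
        refine Prod.ext ?_ e3
        have : x.1 - x0.1 = y.1 - x0.1 := by rw [hxs, hys, e3]
        exact sub_left_inj.1 this
    rw [Fintype.card_option] at hcard
    have := Finset.card_erase_of_mem (show x0 ∈ S by rw [hS, Finset.mem_filter]; exact hx0)
    omega
  · rw [Finset.not_nonempty_iff_eq_empty] at hne
    rw [hne]
    simp

/-- A quadratic polynomial with nonsquare leading coefficient has many nonsquare values. -/
theorem nonsq_count {F : Type*} [Field F] [Fintype F] (h2 : (2 : F) ≠ 0) {A B C : F} (hA : ¬ IsSquare A) :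
    Fintype.card F ≤ 2 * (Finset.univ.filter fun t : F => ¬ IsSquare (A * t ^ 2 + B * t + C)).card + 6 := by
  have hA0 : A ≠ 0 := by
    rintro rfl
    exact hA ⟨0, by simp⟩
  -- complete the square
  obtain ⟨s, hs⟩ : ∃ s : F, s = B / (2 * A) := ⟨_, rfl⟩
  obtain ⟨D, hD⟩ : ∃ D : F, D = C - A * s ^ 2 := ⟨_, rfl⟩
  have hsq : ∀ t : F, A * t ^ 2 + B * t + C = A * (t + s) ^ 2 + D := by
    intro t
    have hB : B = 2 * A * s := by
      rw [hs]; field_simp
    rw [hD, hB]
    ring
  set N := Finset.univ.filter fun t : F => ¬ IsSquare (A * t ^ 2 + B * t + C) with hN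
  set Q := Finset.univ.filter fun t : F => IsSquare (A * t ^ 2 + B * t + C) with hQ
  have hNQ : Q.card + N.card = Fintype.card F := by
    rw [hN, hQ, ← Finset.card_univ]
    exact Finset.card_filter_add_card_filter_not _
  have hQb : 2 * Q.card ≤ Fintype.card F + 6 := by
    by_cases hD0 : D = 0
    · -- only one square value
      have h1 : Q.card ≤ 1 := by
        rw [Finset.card_le_one]
        have h3 : ∀ t ∈ Q, t = -s := by
          intro t ht
          rw [hQ, Finset.mem_filter, hsq, hD0, add_zero] at ht
          by_contra hne
          have hts : t + s ≠ 0 := fun h => hne (eq_neg_of_add_eq_zero_left h)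
          obtain ⟨r, hr⟩ := ht.2
          apply hA
          refine ⟨r / (t + s), ?_⟩
          field_simp
          linear_combination hr
        intro a ha b hb
        rw [h3 a ha, h3 b hb]
      omega
    · have h1 := conic_card h2 hA hD0
      set S := Finset.univ.filter fun x : F × F => x.1 ^ 2 = A * x.2 ^ 2 + D with hS
      -- the zeros
      set Z := Finset.univ.filter fun t : F => A * t ^ 2 + B * t + C = 0 with hZ
      have hZ2 : Z.card ≤ 2 := by
        have h3 : Z ⊆ (Polynomial.C A * Polynomial.X ^ 2 + Polynomial.C B * Polynomial.X +
            Polynomial.C C).roots.toFinset := by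
          intro t ht
          rw [hZ, Finset.mem_filter] at ht
          have hd := Polynomial.natDegree_quadratic (a := A) (b := B) (c := C) hA0
          rw [Multiset.mem_toFinset, Polynomial.mem_roots (by
            intro h0
            rw [h0, Polynomial.natDegree_zero] at hd
            exact absurd hd (by norm_num)), Polynomial.IsRoot.def]
          simpa using ht.2
        refine (Finset.card_le_card h3).trans ((Multiset.toFinset_card_le _).trans
          ((Polynomial.card_roots' _).trans ?_))
        exact (Polynomial.natDegree_quadratic (a := A) (b := B) (c := C) hA0).le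
      have h4 : 2 * (Q \ Z).card ≤ S.card := by
        have h5 : ∀ t ∈ Q \ Z, ∃ y : F, y ≠ 0 ∧ y ^ 2 = A * (t + s) ^ 2 + D := by
          intro t ht
          rw [Finset.mem_sdiff, hQ, hZ, Finset.mem_filter, Finset.mem_filter] at ht
          obtain ⟨⟨-, r, hr⟩, h6⟩ := ht
          refine ⟨r, ?_, ?_⟩
          · rintro rfl
            exact h6 ⟨Finset.mem_univ _, by rw [hr, mul_zero]⟩
          · rw [← hsq, hr, pow_two]
        choose! y hy0 hy using h5
        have h7 : ((Q \ Z) ×ˢ (Finset.univ : Finset Bool)).card ≤ S.card := by
          refine Finset.card_le_card_of_injOn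
            (fun p => (if p.2 then y p.1 else - y p.1, p.1 + s)) ?_ ?_
          · rintro ⟨t, e⟩ hp
            rw [Finset.mem_coe, Finset.mem_product] at hp
            rw [Finset.mem_coe, hS, Finset.mem_filter]
            refine ⟨Finset.mem_univ _, ?_⟩
            simp only
            split_ifs
            · exact hy t hp.1
            · rw [neg_pow, hy t hp.1]
              norm_num
          · rintro ⟨t, e⟩ hp ⟨t', e'⟩ hp' h8
            rw [Finset.mem_coe, Finset.mem_product] at hp hp'
            simp only [Prod.mk.injEq, add_left_inj] at h8
            obtain ⟨h9, rfl⟩ := h8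
            refine Prod.ext rfl ?_
            have hyt := hy0 t hp.1
            have hne : y t ≠ - y t := by
              intro h
              apply hyt
              have : 2 * y t = 0 := by linear_combination h
              exact (mul_eq_zero.1 this).resolve_left h2
            simp only
            cases e <;> cases e' <;> simp_all
        rw [Finset.card_product, Finset.card_univ, Fintype.card_bool] at h7
        omega
      have h5 : Q.card ≤ (Q \ Z).card + Z.card := by
        have := Finset.card_le_card (show Q ⊆ (Q \ Z) ∪ Z from fun x hx => by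
          rw [Finset.mem_union, Finset.mem_sdiff]; tauto)
        exact this.trans (Finset.card_union_le _ _)
      omega
  omega

end Pool.Agent.K9h8.Lc
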