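import Pool.Agent.K9h8.Lc.Std
import Pool.Agent.K9h8.Lc.Cls
import Pool.Agent.K9h8.Lc.Nsq
import Pool.Agent.X243.Tate.Cnt

/-!
# The number of good triples
-/

set_option autoImplicit false
set_option linter.all false

open scoped Classical

namespace Pool.Agent.K9h8.Lc

open Polynomial Pool.Agent.Y160.T3 Pool.Agent.X243.Tate

variable {F : Type} [Field F] [Fintype F]

/-- The linear form. -/
def cOf (y : Fin 3 → F) : Fin 3 → F := ![y 2, y 1, y 0]

/-- The member `t` of the pencil of the quadratic forms with given restriction to the standard conic. -/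
def bOf (e : Fin 5 → F) (t : F) : Fin 6 → F := ![e 4, e 3, -t, e 2 + t, e 1, e 0]

theorem p2_cOf (y : Fin 3 → F) : p2 (cOf y) = bF y := by
  simp only [p2, cOf, bF, Fin.sum_univ_three, Matrix.cons_val_zero, Matrix.cons_val_one, Matrix.cons_val]
  simp only [Fin.val_zero, Fin.val_one, Fin.val_two, pow_zero, pow_one, mul_one]
  ring

theorem p4_bOf (e : Fin 5 → F) (t : F) : p4 (bOf e t) = bF e := by
  have h : (-t + (e 2 + t)) = e 2 := by ring
  simp only [p4, bOf, bF, Fin.sum_univ_five, Matrix.cons_val_zero, Matrix.cons_val_one, Matrix.cons_val]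
  rw [h]
  show C (e 4) * X ^ 4 + C (e 3) * X ^ 3 + C (e 2) * X ^ 2 + C (e 1) * X + C (e 0) =
    C (e 0) * X ^ 0 + C (e 1) * X ^ 1 + C (e 2) * X ^ 2 + C (e 3) * X ^ 3 + C (e 4) * X ^ 4
  ring

theorem bOf_eq (e : Fin 5 → F) (t : F) : bOf e t = bOf e 0 + t • st F := by
  funext i
  fin_cases i <;> simp [bOf, st]

theorem disc_nonsq (h2 : (2 : F) ≠ 0) {c : Fin 3 → F} (hi : Irreducible (p2 c)) (hd : (p2 c).natDegree = 2) :
    ¬ IsSquare (c 0 ^ 2 * (c 1 ^ 2 - 4 * c 0 * c 2)) := by
  have hc0 := natDegree_p2_lt hd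
  rintro ⟨r, hr⟩
  obtain ⟨s, hs⟩ : ∃ s, s = r / c 0 := ⟨_, rfl⟩
  have hs2 : c 1 ^ 2 - 4 * c 0 * c 2 = s ^ 2 := by
    rw [hs]
    field_simp
    linear_combination hr
  have hroot : (p2 c).IsRoot ((-c 1 + s) / (2 * c 0)) := by
    rw [IsRoot.def, p2]
    simp only [eval_add, eval_mul, eval_C, eval_pow, eval_X]
    field_simp
    linear_combination (-1 : F) * hs2
  have h3 := hi.not_isRoot_of_natDegree_ne_one (by omega) (x := (-c 1 + s) / (2 * c 0))
  exact h3 hroot

theorem dl_quad (y : Fin 3 → F) (e : Fin 5 → F) : ∃ B C : F, ∀ t : F,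
    dl (cOf y) (bOf e t) = (cOf y 0 ^ 2 * (cOf y 1 ^ 2 - 4 * cOf y 0 * cOf y 2)) * t ^ 2 + B * t + C := by
  refine ⟨2 * q1 (cOf y) (bOf e 0) * (cOf y 0 * cOf y 1) - 4 * (q0 (cOf y) (bOf e 0) * (cOf y 0 * cOf y 2) +
    cOf y 0 ^ 2 * q2 (cOf y) (bOf e 0)), dl (cOf y) (bOf e 0), fun t => ?_⟩
  simp only [dl, q0, q1, q2, bOf, Matrix.cons_val_zero, Matrix.cons_val_one, Matrix.cons_val]
  ring

/-- The good members of a pencil. -/
theorem pencil_count (h2 : (2 : F) ≠ 0) (hq : 24 ≤ Fintype.card F) {y : Fin 3 → F} (hy : y ∈ T1 F 2)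
    (e : Fin 5 → F) : Fintype.card F ≤ 4 * (Finset.univ.filter fun t : F =>
      ¬ IsSquare (dl (cOf y) (bOf e t)) ∧ dsc (bOf e t) ≠ 0).card := by
  obtain ⟨B, C, hBC⟩ := dl_quad y e
  have hy' : Irreducible (bF y) ∧ (bF y).natDegree = 2 := hy
  have hA := disc_nonsq h2 (c := cOf y) (by rw [p2_cOf]; exact hy'.1) (by rw [p2_cOf]; exact hy'.2)
  have h3 := nonsq_count (B := B) (C := C) h2 hA
  have h4 := card_pencil (bOf e 0)
  have h5 : {t : F | dsc (bOf e 0 + t • st F) = 0}.ncard =
      (Finset.univ.filter fun t : F => dsc (bOf e t) = 0).card := by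
    rw [← Set.ncard_coe_finset]
    congr 1
    ext t
    simp [← bOf_eq]
  rw [h5] at h4
  have h6 : (Finset.univ.filter fun t : F => ¬ IsSquare ((cOf y 0 ^ 2 * (cOf y 1 ^ 2 - 4 * cOf y 0 * cOf y 2)) *
      t ^ 2 + B * t + C)) ⊆ (Finset.univ.filter fun t : F =>
      ¬ IsSquare (dl (cOf y) (bOf e t)) ∧ dsc (bOf e t) ≠ 0) ∪
      (Finset.univ.filter fun t : F => dsc (bOf e t) = 0) := by
    intro t ht
    rw [Finset.mem_filter] at ht
    rw [Finset.mem_union, Finset.mem_filter, Finset.mem_filter]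
    by_cases h7 : dsc (bOf e t) = 0
    · exact Or.inr ⟨Finset.mem_univ _, h7⟩
    · refine Or.inl ⟨Finset.mem_univ _, ?_, h7⟩
      rw [hBC]
      exact ht.2
  have h7 := (Finset.card_le_card h6).trans (Finset.card_union_le _ _)
  omega

/-- The number of the standard triples. -/
theorem card_std (h2 : (2 : F) ≠ 0) (hq : 24 ≤ Fintype.card F) :
    Fintype.card F ^ 9 ≤ 512 * (Finset.univ.filter fun p : (Fin 3 → F) × (Fin 6 → F) =>
      StdT p.1 p.2).card := by
  have t2 := T1_card (F := F) (N := 2) (by norm_num) (by omega)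
  have t4 := T1_card (F := F) (N := 4) (by norm_num) (by omega)
  set S2 : Finset (Fin 3 → F) := Finset.univ.filter fun y => y ∈ T1 F 2 with hS2
  set S4 : Finset (Fin 5 → F) := Finset.univ.filter fun y => y ∈ T1 F 4 with hS4
  have c2 : (T1 F 2).ncard = S2.card := by
    rw [← Set.ncard_coe_finset]
    congr 1
    ext y
    simp [hS2]
  have c4 : (T1 F 4).ncard = S4.card := by
    rw [← Set.ncard_coe_finset]
    congr 1
    ext y
    simp [hS4]
  rw [c2] at t2
  rw [c4] at t4
  set W : Finset ((_ : (Fin 3 → F) × (Fin 5 → F)) × F) := (S2 ×ˢ S4).sigma fun p =>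
    Finset.univ.filter fun t : F => ¬ IsSquare (dl (cOf p.1) (bOf p.2 t)) ∧ dsc (bOf p.2 t) ≠ 0 with hW
  have hWc : Fintype.card F * (S2.card * S4.card) ≤ 4 * W.card := by
    rw [hW, Finset.card_sigma, Finset.mul_sum, ← Finset.card_product, mul_comm, ← smul_eq_mul,
      ← Finset.sum_const]
    refine Finset.sum_le_sum fun p hp => ?_
    rw [Finset.mem_product] at hp
    have h3 := hp.1
    rw [hS2, Finset.mem_filter] at h3
    exact pencil_count h2 hq h3.2 p.2
  have hWle : W.card ≤ (Finset.univ.filter fun p : (Fin 3 → F) × (Fin 6 → F) => StdT p.1 p.2).card := by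
    refine Finset.card_le_card_of_injOn (fun x => (cOf x.1.1, bOf x.1.2 x.2)) ?_ ?_
    · rintro ⟨⟨y, e⟩, t⟩ hx
      rw [Finset.mem_coe, hW, Finset.mem_sigma, Finset.mem_product, hS2, hS4, Finset.mem_filter,
        Finset.mem_filter, Finset.mem_filter] at hx
      obtain ⟨⟨⟨-, hy⟩, -, he⟩, -, h3, h4⟩ := hx
      rw [Finset.mem_coe, Finset.mem_filter]
      have hy' : Irreducible (bF y) ∧ (bF y).natDegree = 2 := hy
      have he' : Irreducible (bF e) ∧ (bF e).natDegree = 4 := he
      refine ⟨Finset.mem_univ _, ?_, ?_, ?_, ?_, h3, h4⟩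
      · show Irreducible (p2 (cOf y))
        rw [p2_cOf]; exact hy'.1
      · show (p2 (cOf y)).natDegree = 2
        rw [p2_cOf]; exact hy'.2
      · show Irreducible (p4 (bOf e t))
        rw [p4_bOf]; exact he'.1
      · show (p4 (bOf e t)).natDegree = 4
        rw [p4_bOf]; exact he'.2
    · rintro ⟨⟨y, e⟩, t⟩ _ ⟨⟨y', e'⟩, t'⟩ _ h
      simp only [Prod.mk.injEq] at h
      obtain ⟨h3, h4⟩ := h
      have hy : y = y' := by
        funext i
        fin_cases i
        · exact congrFun h3 2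
        · exact congrFun h3 1
        · exact congrFun h3 0
      have ht : t = t' := by
        have : -t = -t' := congrFun h4 2
        exact neg_injective this
      have he : e = e' := by
        funext i
        fin_cases i
        · exact congrFun h4 5
        · exact congrFun h4 4
        · have h5 : e 2 + t = e' 2 + t' := congrFun h4 3
          rw [ht] at h5
          exact add_right_cancel h5
        · exact congrFun h4 1
        · exact congrFun h4 0
      subst hy he ht
      rfl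
  have h5 : Fintype.card F ^ 9 = Fintype.card F ^ (2 + 1) * (Fintype.card F ^ (4 + 1) * Fintype.card F) := by ring
  rw [h5]
  calc Fintype.card F ^ (2 + 1) * (Fintype.card F ^ (4 + 1) * Fintype.card F)
      ≤ (4 * 2 * S2.card) * ((4 * 4 * S4.card) * Fintype.card F) :=
        Nat.mul_le_mul t2 (Nat.mul_le_mul_right _ t4)
    _ = 128 * (Fintype.card F * (S2.card * S4.card)) := by ring
    _ ≤ 128 * (4 * W.card) := Nat.mul_le_mul_left _ hWc
    _ = 512 * W.card := by ring
    _ ≤ _ := Nat.mul_le_mul_left _ hWle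

/-- The parts of a coefficient vector. -/
def vc {F : Type*} (x : Fin 15 → F) : Fin 3 → F := ![x 0, x 1, x 2]
/-- The coefficients of the first conic. -/
def va {F : Type*} (x : Fin 15 → F) : Fin 6 → F := ![x 3, x 4, x 5, x 6, x 7, x 8]
/-- The coefficients of the second conic. -/
def vb {F : Type*} (x : Fin 15 → F) : Fin 6 → F := ![x 9, x 10, x 11, x 12, x 13, x 14]

/-- The coefficient vector with given parts. -/
def vv {F : Type*} (c : Fin 3 → F) (a b : Fin 6 → F) : Fin 15 → F :=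
  ![c 0, c 1, c 2, a 0, a 1, a 2, a 3, a 4, a 5, b 0, b 1, b 2, b 3, b 4, b 5]

theorem vc_vv {F : Type*} (c : Fin 3 → F) (a b : Fin 6 → F) : vc (vv c a b) = c := by
  funext i
  fin_cases i <;> rfl

theorem va_vv {F : Type*} (c : Fin 3 → F) (a b : Fin 6 → F) : va (vv c a b) = a := by
  funext i
  fin_cases i <;> rfl

theorem vb_vv {F : Type*} (c : Fin 3 → F) (a b : Fin 6 → F) : vb (vv c a b) = b := by
  funext i
  fin_cases i <;> rfl

/-- The good coefficient vectors. -/
def Gd (F : Type) [Field F] [Fintype F] (x : Fin 15 → F) : Prop :=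
  dsc (va x) ≠ 0 ∧ dsc (vb x) ≠ 0 ∧ ∀ (K : Type) [Field K] [Algebra F K] [IsAlgClosed K],
    Core F K (vc x) (va x) (vb x)

theorem sl_inj {g : Matrix (Fin 3) (Fin 3) F} (hg : g.det ≠ 0) : Function.Injective (sl g) := by
  have hgh : g * g⁻¹ = 1 := Matrix.mul_nonsing_inv g (isUnit_iff_ne_zero.2 hg)
  intro c c' h
  have h1 : Matrix.vecMul (Matrix.vecMul c g) g⁻¹ = Matrix.vecMul (Matrix.vecMul c' g) g⁻¹ :=
    congrArg (fun z => Matrix.vecMul z g⁻¹) h
  rwa [Matrix.vecMul_vecMul, Matrix.vecMul_vecMul, hgh, Matrix.vecMul_one, Matrix.vecMul_one] at h1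

/-- Discriminants under linear changes of coordinates. -/
theorem dsc_sb (g : Matrix (Fin 3) (Fin 3) F) (a : Fin 6 → F) : dsc (sb g a) = g.det ^ 2 * dsc a := by
  rw [Matrix.det_fin_three]
  simp only [dsc, sb, qd, pl, Matrix.cons_val_zero, Matrix.cons_val_one, Matrix.cons_val,
    Matrix.col_apply]
  ring

/-- **The number of good triples.** -/
theorem card_good (h2 : (2 : F) ≠ 0) (hq : 24 ≤ Fintype.card F) :
    Fintype.card F ^ 15 ≤ 1024 * {x : Fin 15 → F | Gd F x}.ncard := by
  set q := Fintype.card F with hqd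
  set ND : Finset (Fin 6 → F) := Finset.univ.filter fun a => dsc a ≠ 0 with hND
  set DG : Finset (Fin 6 → F) := Finset.univ.filter fun a => dsc a = 0 with hDG
  set SS := Finset.univ.filter fun p : (Fin 3 → F) × (Fin 6 → F) => StdT p.1 p.2 with hSS
  have h3 : DG.card + ND.card = q ^ 6 := by
    have h4 := Finset.card_filter_add_card_filter_not (s := (Finset.univ : Finset (Fin 6 → F)))
      (fun a : Fin 6 → F => dsc a = 0)
    rw [Finset.card_univ, Fintype.card_fun, Fintype.card_fin] at h4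
    exact h4
  have h4 : DG.card ≤ 3 * q ^ 5 := by
    have h5 := card_degenerate (F := F) h2
    have h6 : {a : Fin 6 → F | dsc a = 0}.ncard = DG.card := by
      rw [← Set.ncard_coe_finset]
      congr 1
      ext a
      simp [hDG]
    rwa [h6] at h5
  have h5 : q ^ 6 ≤ 2 * ND.card := by
    have h6 : 2 * (3 * q ^ 5) ≤ q ^ 6 := by
      calc 2 * (3 * q ^ 5) = 6 * q ^ 5 := by ring
        _ ≤ q * q ^ 5 := Nat.mul_le_mul_right _ (by omega)
        _ = q ^ 6 := by ring
    omega
  -- the changes of coordinates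
  have h6 : ∀ a : Fin 6 → F, ∃ (g : Matrix (Fin 3) (Fin 3) F) (u : F), dsc a ≠ 0 →
      g.det ≠ 0 ∧ u ≠ 0 ∧ a = u • sb g (st F) := by
    intro a
    by_cases ha : dsc a = 0
    · exact ⟨1, 1, fun h => absurd ha h⟩
    · obtain ⟨g, u, h⟩ := classify h2 ha
      exact ⟨g, u, fun _ => h⟩
  choose g u hgu using h6
  have h7 : (ND ×ˢ SS).card ≤ (Finset.univ.filter fun x : Fin 15 → F => Gd F x).card := by
    refine Finset.card_le_card_of_injOn (fun p => vv (sl (g p.1) p.2.1) p.1 (sb (g p.1) p.2.2)) ?_ ?_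
    · rintro ⟨a, c, b⟩ hp
      rw [Finset.mem_coe, Finset.mem_product, hND, hSS, Finset.mem_filter, Finset.mem_filter] at hp
      obtain ⟨⟨-, ha⟩, -, hs⟩ := hp
      have hs' : StdT c b := hs
      have ha' : dsc a ≠ 0 := ha
      obtain ⟨hg, hu, hau⟩ := hgu a ha'
      rw [Finset.mem_coe, Finset.mem_filter]
      refine ⟨Finset.mem_univ _, ?_, ?_, ?_⟩
      · show dsc (va (vv _ a _)) ≠ 0
        rw [va_vv]
        exact ha'
      · show dsc (vb (vv _ _ (sb (g a) b))) ≠ 0
        rw [vb_vv, dsc_sb]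
        exact mul_ne_zero (pow_ne_zero _ hg) hs'.nd
      · intro K _ _ _
        show Core F K (vc (vv (sl (g a) c) a (sb (g a) b))) (va (vv (sl (g a) c) a (sb (g a) b)))
          (vb (vv (sl (g a) c) a (sb (g a) b)))
        rw [vc_vv, va_vv, vb_vv]
        obtain ⟨g', u', hg', hu', hb'⟩ := classify h2 hs'.nd
        have hcore : Core F K c (st F) b := hs'.core (eul_conic hg' hu' hb')
        have h8 := (hcore.change hg).smul hu
        rwa [← hau] at h8
    · rintro ⟨a, c, b⟩ hp ⟨a', c', b'⟩ hp' h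
      rw [Finset.mem_coe, Finset.mem_product, hND, hSS, Finset.mem_filter, Finset.mem_filter] at hp
      obtain ⟨⟨-, ha⟩, -⟩ := hp
      have h' : vv (sl (g a) c) a (sb (g a) b) = vv (sl (g a') c') a' (sb (g a') b') := h
      have e1 := congrArg va h'
      rw [va_vv, va_vv] at e1
      subst e1
      obtain ⟨hg, -⟩ := hgu a ha
      have e2 := congrArg vc h'
      rw [vc_vv, vc_vv] at e2
      have e3 := congrArg vb h'
      rw [vb_vv, vb_vv] at e3
      rw [sl_inj hg e2, sb_inj hg e3]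
  have h8 := card_std (F := F) h2 hq
  have h9 : {x : Fin 15 → F | Gd F x}.ncard = (Finset.univ.filter fun x : Fin 15 → F => Gd F x).card := by
    rw [← Set.ncard_coe_finset]
    congr 1
    ext a
    simp
  rw [h9]
  rw [Finset.card_product] at h7
  calc q ^ 15 = q ^ 6 * q ^ 9 := by ring
    _ ≤ (2 * ND.card) * (512 * SS.card) := Nat.mul_le_mul h5 h8
    _ = 1024 * (ND.card * SS.card) := by ring
    _ ≤ _ := Nat.mul_le_mul_left _ h7

end Pool.Agent.K9h8.Lc
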