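import Pool.Agent.K9h8.Lc.Def

/-!
# No Tate classes from a coprimality modulo `ℓ`
-/

set_option autoImplicit false

namespace Pool.Agent.K9h8.Lc

open Polynomial Pool.Agent.K9h8.Kum

/-- If `R` is prime to `X ^ M - 1` modulo `ℓ` and `q = 1` modulo `ℓ`, then `R` has no zero `z` with
`(z q) ^ M = 1`. -/
theorem aeval_ne_zero' {ℓ : ℕ} (hℓ : ℓ.Prime) {q : ℤ} (hq : (ℓ : ℤ) ∣ q - 1) {R : ℤ[X]} {M : ℕ}
    (hM : 0 < M) (hR : IsCoprime (R.map (Int.castRingHom (ZMod ℓ))) (X ^ M - 1))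
    {E : Type*} [Field E] [CharZero E] (z : E)
    (hz : (z * (q : E)) ^ M = 1) : aeval z R ≠ 0 := by
  intro h0
  set ζ : E := z * (q : E) with hζ
  have hq0 : (q : E) ≠ 0 := by
    intro h
    rw [hζ, h, mul_zero, zero_pow hM.ne'] at hz
    exact zero_ne_one hz
  -- clear denominators
  set N := R.natDegree with hN
  have h1 : ∑ i ∈ Finset.range (N + 1), (R.coeff i : E) * ζ ^ i * (q : E) ^ (N - i) = 0 := by
    rw [aeval_eq_sum_range] at h0
    have h2 : ∑ i ∈ Finset.range (N + 1), (R.coeff i : E) * ζ ^ i * (q : E) ^ (N - i) =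
        (q : E) ^ N * ∑ i ∈ Finset.range (N + 1), R.coeff i • z ^ i := by
      rw [Finset.mul_sum]
      refine Finset.sum_congr rfl fun i hi => ?_
      have hi' : i ≤ N := by rw [Finset.mem_range] at hi; omega
      rw [hζ, mul_pow, zsmul_eq_mul, ← Nat.add_sub_of_le hi', pow_add]
      simp only [Nat.add_sub_cancel_left]
      ring
    rw [h2, h0, mul_zero]
  -- the ring of integers
  have hint : IsIntegral ℤ ζ := by
    refine IsIntegral.of_pow hM ?_
    rw [hz]
    exact isIntegral_one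
  let ζ' : integralClosure ℤ E := ⟨ζ, hint⟩
  have hmax : (Ideal.span {(ℓ : ℤ)}).IsMaximal :=
    PrincipalIdealRing.isMaximal_of_irreducible (Nat.prime_iff_prime_int.1 hℓ).irreducible
  obtain ⟨𝔪, h𝔪, hc⟩ := Ideal.exists_ideal_over_maximal_of_isIntegral
    (S := integralClosure ℤ E) (Ideal.span {(ℓ : ℤ)}) (by
      intro x hx
      rw [RingHom.mem_ker] at hx
      have hinj : Function.Injective (algebraMap ℤ (integralClosure ℤ E)) :=
        FaithfulSMul.algebraMap_injective ℤ (integralClosure ℤ E)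
      rw [hinj (hx.trans (map_zero _).symm)]
      exact Ideal.zero_mem _)
  let π : integralClosure ℤ E →+* (integralClosure ℤ E ⧸ 𝔪) := Ideal.Quotient.mk 𝔪
  have hfield : IsField (integralClosure ℤ E ⧸ 𝔪) := Ideal.Quotient.maximal_ideal_iff_isField_quotient 𝔪 |>.1 h𝔪
  have hdom : IsDomain (integralClosure ℤ E ⧸ 𝔪) := hfield.isDomain
  have hker : ∀ x : ℤ, π (algebraMap ℤ _ x) = 0 ↔ (ℓ : ℤ) ∣ x := by
    intro x
    rw [← Ideal.mem_span_singleton, ← hc, Ideal.mem_comap]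
    exact Ideal.Quotient.eq_zero_iff_mem
  have hchar : CharP (integralClosure ℤ E ⧸ 𝔪) ℓ := by
    refine ⟨fun x => ?_⟩
    have h3 := hker (x : ℤ)
    rw [Int.natCast_dvd_natCast] at h3
    rw [← h3]
    simp
  have hFact : Fact ℓ.Prime := ⟨hℓ⟩
  have h4 : (π ζ') ^ M = 1 := by
    rw [← map_pow]
    have : ζ' ^ M = 1 := Subtype.ext hz
    rw [this, map_one]
  have h5 : π (algebraMap ℤ _ q) = 1 := by
    have h6 := (hker (q - 1)).2 hq
    rw [map_sub, map_sub, map_one, map_one] at h6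
    exact sub_eq_zero.1 h6
  -- the equation in the ring of integers
  have h7 : ∑ i ∈ Finset.range (N + 1), (algebraMap ℤ (integralClosure ℤ E) (R.coeff i)) * ζ' ^ i *
      (algebraMap ℤ (integralClosure ℤ E) q) ^ (N - i) = 0 := by
    apply Subtype.ext
    have h8 : ((∑ i ∈ Finset.range (N + 1), (algebraMap ℤ (integralClosure ℤ E) (R.coeff i)) * ζ' ^ i *
      (algebraMap ℤ (integralClosure ℤ E) q) ^ (N - i) : integralClosure ℤ E) : E) =
        ∑ i ∈ Finset.range (N + 1), (R.coeff i : E) * ζ ^ i * (q : E) ^ (N - i) := by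
      push_cast
      refine Finset.sum_congr rfl fun i _ => ?_
      simp [ζ']
    rw [h8, h1]
    rfl
  have h9 := congrArg π h7
  rw [map_sum, map_zero] at h9
  let g : ZMod ℓ →+* (integralClosure ℤ E ⧸ 𝔪) := ZMod.castHom dvd_rfl _
  have hg : π.comp (algebraMap ℤ (integralClosure ℤ E)) = g.comp (Int.castRingHom (ZMod ℓ)) :=
    RingHom.ext_int _ _
  have h10 : eval₂ g (π ζ') (R.map (Int.castRingHom (ZMod ℓ))) = 0 := by
    rw [eval₂_map, ← hg, eval₂_eq_sum_range, ← h9]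
    refine Finset.sum_congr rfl fun i _ => ?_
    rw [map_mul, map_mul, map_pow, map_pow, h5, one_pow, mul_one]
    rfl
  obtain ⟨u, w, huw⟩ := hR
  have h11 := congrArg (eval₂ g (π ζ')) huw
  rw [eval₂_add, eval₂_mul, eval₂_mul, h10, eval₂_sub, eval₂_pow, eval₂_X, eval₂_one, h4, sub_self,
    mul_zero, mul_zero, add_zero] at h11
  exact zero_ne_one h11

/-- The same for the action of a Frobenius element on a representation. -/
theorem no_classes' {ℓ : ℕ} (hℓ : ℓ.Prime) {q : ℤ} (hq : (ℓ : ℤ) ∣ q - 1) {R : ℤ[X]} {M : ℕ}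
    (hM0 : 0 < M) (hR : IsCoprime (R.map (Int.castRingHom (ZMod ℓ))) (X ^ M - 1))
    {E : Type*} [Field E] [CharZero E] {V : Type*} [AddCommGroup V]
    [Module E V] [FiniteDimensional E V] (φ : V →ₗ[E] V)
    (hφ : φ.charpoly.reverse = R.map (Int.castRingHom E)) (hq0 : q ≠ 0) (v : V)
    (hv : (φ ^ M) v = ((q : E) ^ M) • v) : v = 0 := by
  classical
  by_contra hne
  set g : E[X] := X ^ M - C ((q : E) ^ M) with hg
  have hgv : (aeval φ g) v = 0 := by
    rw [hg, map_sub, map_pow, aeval_X, aeval_C, LinearMap.sub_apply, hv]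
    rw [Module.algebraMap_end_apply, sub_self]
  have hnc : ¬ IsCoprime g φ.charpoly := by
    rintro ⟨u, w, huw⟩
    apply hne
    have h1 := congrArg (fun p => (aeval φ p) v) huw
    simp only [map_add, map_mul, LinearMap.add_apply, Module.End.mul_apply, hgv, map_zero,
      LinearMap.aeval_self_charpoly, zero_add, map_one, Module.End.one_apply,
      LinearMap.zero_apply] at h1
    exact h1.symm
  -- a common root
  obtain ⟨α, hα1, hα2⟩ : ∃ α : AlgebraicClosure E, aeval α g = 0 ∧ aeval α φ.charpoly = 0 := by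
    have h1 : ¬ IsUnit (EuclideanDomain.gcd g φ.charpoly) := by
      intro h
      exact hnc (EuclideanDomain.gcd_isUnit_iff.1 h)
    have hg0 : g ≠ 0 := X_pow_sub_C_ne_zero hM0 _
    have h2 : EuclideanDomain.gcd g φ.charpoly ≠ 0 := by
      intro h
      exact hg0 (EuclideanDomain.gcd_eq_zero_iff.1 h).1
    have h3 : (EuclideanDomain.gcd g φ.charpoly).degree ≠ 0 := by
      intro h
      exact h1 (Polynomial.isUnit_iff_degree_eq_zero.2 h)
    obtain ⟨α, hα⟩ := IsAlgClosed.exists_aeval_eq_zero (AlgebraicClosure E) _ h3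
    refine ⟨α, ?_, ?_⟩
    · obtain ⟨c, hc⟩ := EuclideanDomain.gcd_dvd_left g φ.charpoly
      rw [hc, map_mul, hα, zero_mul]
    · obtain ⟨c, hc⟩ := EuclideanDomain.gcd_dvd_right g φ.charpoly
      rw [hc, map_mul, hα, zero_mul]
  have hq1 : ((q : AlgebraicClosure E)) ≠ 0 := by exact_mod_cast hq0
  have hα3 : α ^ M = (q : AlgebraicClosure E) ^ M := by
    rw [hg, map_sub, map_pow, aeval_X, aeval_C, sub_eq_zero] at hα1
    rw [hα1]
    simp
  have hα0 : α ≠ 0 := by
    rintro rfl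
    rw [zero_pow hM0.ne'] at hα3
    exact pow_ne_zero _ hq1 hα3.symm
  let _ : Invertible α := invertibleOfNonzero hα0
  have h4 : eval₂ (algebraMap E (AlgebraicClosure E)) (⅟α) φ.charpoly.reverse = 0 := by
    rw [eval₂_reverse_eq_zero_iff]
    exact hα2
  have h5 : aeval (α⁻¹) R = 0 := by
    rw [hφ, eval₂_map, invOf_eq_inv] at h4
    rw [aeval_def, ← h4]
    exact congrArg (fun r : ℤ →+* AlgebraicClosure E => eval₂ r α⁻¹ R) (Subsingleton.elim _ _)
  refine aeval_ne_zero' hℓ hq hM0 hR (α⁻¹) ?_ h5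
  rw [mul_pow, inv_pow, hα3]
  exact inv_mul_cancel₀ (pow_ne_zero _ hq1)

theorem noTate_coprime {ℓ : ℕ} (hℓ : ℓ.Prime) {q : ℤ} (hq : (ℓ : ℤ) ∣ q - 1) (hq0 : q ≠ 0)
    {R : Polynomial ℤ} {M : ℕ} (hM : 0 < M)
    (hR : IsCoprime (R.map (Int.castRingHom (ZMod ℓ))) (X ^ M - 1)) : NoTate q R M := by
  intro E _ _ V _ _ _ Γ _ ρ φ ε hφ hε Γ' ha v hv
  refine no_classes' hℓ hq hM hR (ρ φ) hφ hq0 v ?_
  have h1 := hv _ ha
  rw [map_pow, map_pow, hε] at h1
  exact h1

/-- The polynomial of a line and two conics. -/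
theorem coprime_std {κ : Type*} [Field κ] (h2 : (2 : κ) ≠ 0) (N : ℕ) {M : ℕ} (hM : Odd M) :
    IsCoprime ((((1 + X) ^ 3 * (1 + X ^ 2)) ^ N : κ[X])) (X ^ M - 1) := by
  have hunit : IsUnit (C (-2) : κ[X]) := isUnit_C.2 (isUnit_iff_ne_zero.2 (neg_ne_zero.2 h2))
  have key : ∀ (P Q : κ[X]), P ∣ Q - C (-2) → IsCoprime P Q := by
    rintro P Q ⟨A, hA⟩
    have h3 : IsCoprime P (C (-2)) := isCoprime_one_right.of_isCoprime_of_dvd_right hunit.dvd
    have h4 : Q = P * A + C (-2) := by rw [← hA]; ring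
    rw [h4]
    exact IsCoprime.mul_add_left_right h3 A
  have h1 : IsCoprime (1 + X : κ[X]) (X ^ M - 1) := by
    apply key
    have h3 : (X - C (-1) : κ[X]) ∣ X ^ M - 1 - C (-2) := by
      rw [dvd_iff_isRoot, IsRoot.def, eval_sub, eval_sub, eval_pow, eval_X, eval_one, eval_C, hM.neg_one_pow]
      ring
    have h4 : (X - C (-1) : κ[X]) = 1 + X := by
      rw [C_neg, C_1]
      ring
    rwa [h4] at h3
  have h2' : IsCoprime (1 + X ^ 2 : κ[X]) (X ^ M - 1) := by
    have h3 : IsCoprime (1 + X ^ 2 : κ[X]) (X ^ (2 * M) - 1) := by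
      apply key
      have h4 : (1 + X ^ 2 : κ[X]) ∣ (X ^ 2) ^ M + 1 ^ M := by
        have := Odd.add_dvd_pow_add_pow (X ^ 2 : κ[X]) 1 hM
        rwa [add_comm] at this
      have h5 : (X ^ (2 * M) - 1 - C (-2) : κ[X]) = (X ^ 2) ^ M + 1 ^ M := by
        rw [one_pow, pow_mul, C_neg]
        have : (C 2 : κ[X]) = 2 := rfl
        rw [this]
        ring
      rw [h5]
      exact h4
    refine h3.of_isCoprime_of_dvd_right ⟨X ^ M + 1, ?_⟩
    rw [two_mul, pow_add]
    ring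
  exact ((h1.pow_left (m := 3)).mul_left h2').pow_left

end Pool.Agent.K9h8.Lc
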