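import Pool.Agent.K9h8.Lc.Core
import Pool.Agent.K9h8.Lc.NT

/-!
# The zeta functions of the Kummer covers modulo `ℓ`
-/

set_option autoImplicit false
set_option linter.all false

namespace Pool.Agent.K9h8.Lc

open Function Polynomial Pool.Agent.K9h8.Kum
open scoped LinearAlgebra.Projectivization

section prim

theorem isPrimitive_point {q e : ℕ} (he : 1 ≤ e) {b : ℕ → ℕ} (hb : ∀ D, 1 ≤ D → b D = if D = e then 1 else 0) :
    IsPrimitive q 0 b (∑ i ∈ Finset.range e, (X : ℤ[X]) ^ i) := by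
  refine ⟨?_, 1 - PowerSeries.X ^ e, (isEul_point (R := ℤ) he).congr fun D hD => (hb D hD).symm, ?_, ?_⟩
  · rw [finset_sum_coeff, Finset.sum_eq_single 0]
    · simp
    · intro i _ hi
      rw [coeff_X_pow, if_neg (Ne.symm hi)]
    · intro h
      exact absurd (Finset.mem_range.2 (by omega)) h
  · intro _
    rw [Finset.prod_range_one, pow_zero, map_one, one_mul]
    have h1 : (∑ i ∈ Finset.range e, (X : ℤ[X]) ^ i) * (1 - X) = 1 - X ^ e := by
      have := geom_sum_mul (X : ℤ[X]) e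
      linear_combination -this
    have h2 := congrArg (fun p : ℤ[X] => (p : PowerSeries ℤ)) h1
    simp only [coe_mul, coe_sub, coe_one, coe_X, coe_pow] at h2
    exact h2.symm
  · intro h
    exact absurd h (by decide)

theorem isPrimitive_zp {k : Type*} [Fintype k] {b : ℕ → ℕ} (h : IsEul b (zp k)) :
    IsPrimitive (Fintype.card k) 1 b 1 := by
  refine ⟨by simp, zp k, h, fun h => absurd h (by decide), fun _ => ?_⟩
  rw [Finset.prod_range_succ, Finset.prod_range_one, pow_zero, pow_one, map_one, one_mul,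
    coe_one, mul_one]
  rfl

theorem IsPrimitivePart.primitive {q : ℕ} {b : ℕ → ℕ} {R : ℤ[X]} (h : IsPrimitivePart q b R) :
    IsPrimitive q 2 b R := by
  refine ⟨h.1, _, h.2, fun _ => ?_, fun h => absurd h (by decide)⟩
  rw [Finset.prod_range_succ, Finset.prod_range_succ, Finset.prod_range_one, pow_zero, pow_one,
    map_one, one_mul]
  ring

end prim

variable {k : Type*} [Field k] [Fintype k] {K : Type*} [Field K] [Algebra k K]

/-- The three forms. -/
noncomputable def three (c : Fin 3 → k) (a b : Fin 6 → k) : Fin 3 → MvPolynomial (Fin 3) k :=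
  ![lnF c, qdF a, qdF b]

theorem per_of_mem {S : Type*} {F : S → S} {P Q : S} {d : ℕ} (hd : 1 ≤ d) (hP : minimalPeriod F P = d)
    (hQ : Q ∈ orb F P) : minimalPeriod F Q = d := by
  obtain ⟨n, rfl⟩ := hQ
  exact minimalPeriod_iter hd hP n

theorem Core.no_triple {c : Fin 3 → k} {a b : Fin 6 → k} (hC : Core k K c a b) :
    zeros K (lnF c) ∩ (zeros K (qdF a) ∩ zeros K (qdF b)) = ∅ := by
  obtain ⟨P, h1, h2⟩ := hC.m01
  obtain ⟨Q, h3, h4⟩ := hC.m12
  rw [Set.eq_empty_iff_forall_notMem]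
  rintro x ⟨hx0, hx1, hx2⟩
  have f1 : x ∈ zeros K (lnF c) ∩ zeros K (qdF a) := ⟨hx0, hx1⟩
  have f2 : x ∈ zeros K (qdF a) ∩ zeros K (qdF b) := ⟨hx1, hx2⟩
  rw [h2] at f1
  rw [h4] at f2
  have e1 := per_of_mem (by norm_num) h1 f1
  have e2 := per_of_mem (by norm_num) h3 f2
  rw [e1] at e2
  exact absurd e2 (by norm_num)

theorem Core.cards {c : Fin 3 → k} {a b : Fin 6 → k} (hC : Core k K c a b) :
    (zeros K (lnF c) ∩ zeros K (qdF a)).ncard = 2 ∧ (zeros K (lnF c) ∩ zeros K (qdF b)).ncard = 2 ∧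
      (zeros K (qdF a) ∩ zeros K (qdF b)).ncard = 4 := by
  obtain ⟨P, h1, h2⟩ := hC.m01
  obtain ⟨P', h1', h2'⟩ := hC.m02
  obtain ⟨Q, h3, h4⟩ := hC.m12
  exact ⟨by rw [h2, orb_card (by norm_num) h1], by rw [h2', orb_card (by norm_num) h1'],
    by rw [h4, orb_card (by norm_num) h3]⟩

/-- The primitive parts of the strata. -/
noncomputable def tbl (J : Finset (Fin 3)) : ℤ[X] :=
  if J = {0, 1} ∨ J = {0, 2} then 1 + X else if J = {1, 2} then 1 + X + X ^ 2 + X ^ 3 else 1

theorem Core.zeta [IsAlgClosed K] {c : Fin 3 → k} {a b : Fin 6 → k} (hC : Core k K c a b) {ℓ : ℕ}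
    [Fact ℓ.Prime] (hℓ2 : ℓ ≠ 2) (hℓ : (ℓ : ℤ) ∣ (Fintype.card k : ℤ) - 1) (n : ℕ) {R : ℤ[X]}
    (hR : IsPrimitivePart (Fintype.card k)
      (nOrb (frobX k K (three c a b) (ℓ ^ n) ![1, 2, 2]) Set.univ) R) :
    R.map (Int.castRingHom (ZMod ℓ)) = ((1 + X) ^ 3 * (1 + X ^ 2)) ^ ((ℓ ^ n - 1) ^ 2) := by
  classical
  have hℓp : ℓ.Prime := Fact.out
  have hm : ((ℓ ^ n : ℕ) : K) ≠ 0 := by
    push_cast
    exact pow_ne_zero _ (cast_ne hℓ)
  have h2ℓ : Nat.Coprime 2 ℓ := (Nat.coprime_primes Nat.prime_two hℓp).2 (Ne.symm hℓ2)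
  have hd : ∀ i : Fin 3, Nat.Coprime ((![1, 2, 2] : Fin 3 → ℕ) i) (ℓ ^ n) := by
    intro i
    apply Nat.Coprime.pow_right
    fin_cases i
    · exact Nat.coprime_one_left ℓ
    · exact h2ℓ
    · exact h2ℓ
  have hhom : ∀ i : Fin 3, ((three c a b) i).IsHomogeneous ((![1, 2, 2] : Fin 3 → ℕ) i) := by
    intro i
    fin_cases i
    · exact hom_lnF c
    · exact hom_qdF a
    · exact hom_qdF b
  have hclos : ∀ J, clos (Set.univ : Set (ℙ K (Fin 3 → K))) (three c a b) J =
      {P | ∀ i ∈ J, P ∈ zeros K (three c a b i)} := by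
    intro J
    ext P
    constructor
    · rintro ⟨h3, h4⟩
      exact fun i hi => (mem_zeros' i P).2 (h4 hi)
    · intro h4
      exact ⟨Set.mem_univ _, fun i hi => (mem_zeros' i P).1 (h4 i hi)⟩
  have hempty' : strat (Set.univ : Set (ℙ K (Fin 3 → K))) (three c a b) Finset.univ = ∅ := by
    rw [Set.eq_empty_iff_forall_notMem]
    rintro P ⟨hP1, hP2⟩
    have h3 : ∀ i, P ∈ zeros K (three c a b i) := by
      intro i
      rw [mem_zeros', hP2]
      exact Finset.mem_univ i
    have h4 := hC.no_triple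
    rw [Set.eq_empty_iff_forall_notMem] at h4
    exact h4 P ⟨h3 0, h3 1, h3 2⟩
  have huniv : (prj (K := K) (f := three c a b) (m := ℓ ^ n) (d := ![1, 2, 2])) ⁻¹' Set.univ = Set.univ :=
    Set.preimage_univ
  have hRn : IsPrimitive (Fintype.card k) 2
      (nOrb (frobX k K (three c a b) (ℓ ^ n) ![1, 2, 2]) (prj ⁻¹' Set.univ)) R := by
    rw [huniv]
    exact IsPrimitivePart.primitive hR
  have hpt : ∀ {A : Set (ℙ K (Fin 3 → K))} {d : ℕ}, 1 ≤ d →
      (∃ P : ℙ K (Fin 3 → K), minimalPeriod (frobP k K (Fin 3)) P = d ∧ A = orb (frobP k K (Fin 3)) P) →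
      IsPrimitive (Fintype.card k) 0 (nOrb (frobP k K (Fin 3)) A) (∑ i ∈ Finset.range d, (X : ℤ[X]) ^ i) := by
    rintro A d hd1 ⟨P, h1, h2⟩
    exact isPrimitive_point hd1 fun D hD => nOrb_single hd1 h1 h2
  have hg2 : (∑ i ∈ Finset.range 2, (X : ℤ[X]) ^ i) = 1 + X := by
    rw [Finset.sum_range_succ, Finset.sum_range_one, pow_zero, pow_one]
  have hg4 : (∑ i ∈ Finset.range 4, (X : ℤ[X]) ^ i) = 1 + X + X ^ 2 + X ^ 3 := by
    rw [Finset.sum_range_succ, Finset.sum_range_succ, Finset.sum_range_succ, Finset.sum_range_one,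
      pow_zero, pow_one]
  have hprim : ∀ J : Finset (Fin 3), J ≠ Finset.univ → IsPrimitive (Fintype.card k) (2 - J.card)
      (nOrb (frobP k K (Fin 3)) (clos (Set.univ : Set (ℙ K (Fin 3 → K))) (three c a b) J)) (tbl J) := by
    intro J hJ
    rw [hclos]
    have hcases : J = ∅ ∨ J = {0} ∨ J = {1} ∨ J = {2} ∨ J = {0, 1} ∨ J = {0, 2} ∨ J = {1, 2} := by
      revert J
      decide
    rcases hcases with rfl | rfl | rfl | rfl | rfl | rfl | rfl
    · have e1 : {P : ℙ K (Fin 3 → K) | ∀ i ∈ (∅ : Finset (Fin 3)), P ∈ zeros K (three c a b i)} = Set.univ := by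
        ext P; simp
      have e2 : tbl ∅ = 1 := by
        unfold tbl
        rw [if_neg (by decide), if_neg (by decide)]
      rw [e1, e2]
      exact IsPrimitivePart.primitive isPrimitivePart_plane
    · have e1 : {P : ℙ K (Fin 3 → K) | ∀ i ∈ ({0} : Finset (Fin 3)), P ∈ zeros K (three c a b i)} =
          zeros K (lnF c) := by
        ext P; simp [three]
      have e2 : tbl {0} = 1 := by
        unfold tbl
        rw [if_neg (by decide), if_neg (by decide)]
      rw [e1, e2]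
      exact isPrimitive_zp hC.z0
    · have e1 : {P : ℙ K (Fin 3 → K) | ∀ i ∈ ({1} : Finset (Fin 3)), P ∈ zeros K (three c a b i)} =
          zeros K (qdF a) := by
        ext P; simp [three]
      have e2 : tbl {1} = 1 := by
        unfold tbl
        rw [if_neg (by decide), if_neg (by decide)]
      rw [e1, e2]
      exact isPrimitive_zp hC.z1
    · have e1 : {P : ℙ K (Fin 3 → K) | ∀ i ∈ ({2} : Finset (Fin 3)), P ∈ zeros K (three c a b i)} =
          zeros K (qdF b) := by
        ext P; simp [three]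
      have e2 : tbl {2} = 1 := by
        unfold tbl
        rw [if_neg (by decide), if_neg (by decide)]
      rw [e1, e2]
      exact isPrimitive_zp hC.z2
    · have e1 : {P : ℙ K (Fin 3 → K) | ∀ i ∈ ({0, 1} : Finset (Fin 3)), P ∈ zeros K (three c a b i)} =
          zeros K (lnF c) ∩ zeros K (qdF a) := by
        ext P; simp [three]
      have e2 : tbl {0, 1} = 1 + X := by
        unfold tbl
        rw [if_pos (by decide)]
      rw [e1, e2, ← hg2]
      exact hpt (by norm_num) hC.m01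
    · have e1 : {P : ℙ K (Fin 3 → K) | ∀ i ∈ ({0, 2} : Finset (Fin 3)), P ∈ zeros K (three c a b i)} =
          zeros K (lnF c) ∩ zeros K (qdF b) := by
        ext P; simp [three]
      have e2 : tbl {0, 2} = 1 + X := by
        unfold tbl
        rw [if_pos (by decide)]
      rw [e1, e2, ← hg2]
      exact hpt (by norm_num) hC.m02
    · have e1 : {P : ℙ K (Fin 3 → K) | ∀ i ∈ ({1, 2} : Finset (Fin 3)), P ∈ zeros K (three c a b i)} =
          zeros K (qdF a) ∩ zeros K (qdF b) := by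
        ext P; simp [three]
      have e2 : tbl {1, 2} = 1 + X + X ^ 2 + X ^ 3 := by
        unfold tbl
        rw [if_neg (by decide), if_pos (by decide)]
      rw [e1, e2, ← hg4]
      exact hpt (by norm_num) hC.m12
  have hfull := full_formula (k := k) (K := K) (Y := (Set.univ : Set (ℙ K (Fin 3 → K)))) (N := 2)
    (fun P _ => Set.mem_univ _) (by simp) hm hhom hd rfl hℓ hempty' tbl hprim hRn
  rw [hfull]
  have hsub : ({{0, 1}, {0, 2}, {1, 2}} : Finset (Finset (Fin 3))) ⊆ Finset.univ.erase Finset.univ := by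
    decide
  rw [← Finset.prod_subset hsub (fun J _ hJ => by
    have e2 : tbl J = 1 := by
      unfold tbl
      have h1 : J ≠ {0, 1} := fun h => hJ (by rw [h]; decide)
      have h2 : J ≠ {0, 2} := fun h => hJ (by rw [h]; decide)
      have h3 : J ≠ {1, 2} := fun h => hJ (by rw [h]; decide)
      rw [if_neg (by tauto), if_neg h3]
    rw [e2, Polynomial.map_one, one_pow])]
  rw [Finset.prod_insert (by decide), Finset.prod_insert (by decide), Finset.prod_singleton]
  have t1 : tbl {0, 1} = 1 + X := by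
    unfold tbl
    rw [if_pos (by decide)]
  have t2 : tbl {0, 2} = 1 + X := by
    unfold tbl
    rw [if_pos (by decide)]
  have t3 : tbl {1, 2} = 1 + X + X ^ 2 + X ^ 3 := by
    unfold tbl
    rw [if_neg (by decide), if_pos (by decide)]
  have c1 : ({0, 1} : Finset (Fin 3)).card = 2 := by decide
  have c2 : ({0, 2} : Finset (Fin 3)).card = 2 := by decide
  have c3 : ({1, 2} : Finset (Fin 3)).card = 2 := by decide
  rw [t1, t2, t3, c1, c2, c3]
  simp only [Polynomial.map_add, Polynomial.map_one, Polynomial.map_X, Polynomial.map_pow]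
  rw [Nat.sub_self, pow_zero, one_mul, ← mul_pow, ← mul_pow]
  congr 1
  ring

theorem Core.noTate [IsAlgClosed K] {c : Fin 3 → k} {a b : Fin 6 → k} (hC : Core k K c a b) {ℓ : ℕ}
    [Fact ℓ.Prime] (hℓ2 : ℓ ≠ 2) (hℓ : (ℓ : ℤ) ∣ (Fintype.card k : ℤ) - 1) (n : ℕ) {R : ℤ[X]}
    (hR : IsPrimitivePart (Fintype.card k)
      (nOrb (frobX k K (three c a b) (ℓ ^ n) ![1, 2, 2]) Set.univ) R) {M : ℕ} (hM : Odd M) :
    NoTate (Fintype.card k) R M := by
  have hℓp : ℓ.Prime := Fact.out
  refine noTate_coprime hℓp hℓ (by exact_mod_cast Fintype.card_ne_zero) hM.pos ?_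
  rw [hC.zeta hℓ2 hℓ n hR]
  apply coprime_std _ _ hM
  intro h
  have h1 : ((2 : ℕ) : ZMod ℓ) = 0 := by exact_mod_cast h
  rw [ZMod.natCast_eq_zero_iff] at h1
  exact hℓ2 ((Nat.prime_dvd_prime_iff_eq hℓp Nat.prime_two).1 h1)

end Pool.Agent.K9h8.Lc
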