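import Pool.Agent.K9h8.Lc.Irr

/-!
# Line and two conics: zeta functions and intersections, linear changes of coordinates
-/

set_option autoImplicit false

namespace Pool.Agent.K9h8.Lc

open Function Pool.Agent.K9h8.Kum
open scoped LinearAlgebra.Projectivization

/-- The linear form with the coefficients `c`. -/
noncomputable def lnF {k : Type*} [CommRing k] (c : Fin 3 → k) : MvPolynomial (Fin 3) k :=
  MvPolynomial.C (c 0) * MvPolynomial.X 0 + MvPolynomial.C (c 1) * MvPolynomial.X 1 +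
    MvPolynomial.C (c 2) * MvPolynomial.X 2

/-- The quadratic form with the coefficients `a`. -/
noncomputable def qdF {k : Type*} [CommRing k] (a : Fin 6 → k) : MvPolynomial (Fin 3) k :=
  MvPolynomial.C (a 0) * MvPolynomial.X 0 ^ 2 +
    MvPolynomial.C (a 1) * (MvPolynomial.X 0 * MvPolynomial.X 1) +
    MvPolynomial.C (a 2) * (MvPolynomial.X 0 * MvPolynomial.X 2) +
    MvPolynomial.C (a 3) * MvPolynomial.X 1 ^ 2 +
    MvPolynomial.C (a 4) * (MvPolynomial.X 1 * MvPolynomial.X 2) +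
    MvPolynomial.C (a 5) * MvPolynomial.X 2 ^ 2

section basic

variable {k : Type*} [Field k] {K : Type*} [Field K] [Algebra k K]

theorem ev_lnF (c : Fin 3 → k) (v : Fin 3 → K) : MvPolynomial.aeval v (lnF c) =
    algebraMap k K (c 0) * v 0 + algebraMap k K (c 1) * v 1 + algebraMap k K (c 2) * v 2 := by
  simp [lnF]

theorem ev_qdF (a : Fin 6 → k) (v : Fin 3 → K) :
    MvPolynomial.aeval v (qdF a) = qd (fun i => algebraMap k K (a i)) v := by
  simp [qdF, qd]

theorem hom_lnF (c : Fin 3 → k) : (lnF c).IsHomogeneous 1 := Ex.hom_ln _ _ _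

theorem hom_qdF (a : Fin 6 → k) : (qdF a).IsHomogeneous 2 := by
  have h1 : ∀ (x : k) (i : Fin 3),
      (MvPolynomial.C x * MvPolynomial.X i ^ 2 : MvPolynomial (Fin 3) k).IsHomogeneous 2 := fun x i => by
    simpa using (MvPolynomial.isHomogeneous_C (Fin 3) x).mul ((MvPolynomial.isHomogeneous_X k i).pow 2)
  have h2 : ∀ (x : k) (i j : Fin 3),
      (MvPolynomial.C x * (MvPolynomial.X i * MvPolynomial.X j) :
        MvPolynomial (Fin 3) k).IsHomogeneous 2 := fun x i j => by
    simpa using (MvPolynomial.isHomogeneous_C (Fin 3) x).mul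
      ((MvPolynomial.isHomogeneous_X k i).mul (MvPolynomial.isHomogeneous_X k j))
  exact (((((h1 _ 0).add (h2 _ 0 1)).add (h2 _ 0 2)).add (h1 _ 1)).add (h2 _ 1 2)).add (h1 _ 2)

theorem mem_ln (c : Fin 3 → k) (v : Fin 3 → K) (hv : v ≠ 0) :
    Projectivization.mk K v hv ∈ zeros K (lnF c) ↔
      algebraMap k K (c 0) * v 0 + algebraMap k K (c 1) * v 1 + algebraMap k K (c 2) * v 2 = 0 := by
  rw [Ex.mem_zer (hom_lnF c), ev_lnF]

theorem mem_qd (a : Fin 6 → k) (v : Fin 3 → K) (hv : v ≠ 0) :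
    Projectivization.mk K v hv ∈ zeros K (qdF a) ↔ qd (fun i => algebraMap k K (a i)) v = 0 := by
  rw [Ex.mem_zer (hom_qdF a), ev_qdF]

theorem zeros_smul {u : k} (hu : u ≠ 0) (a : Fin 6 → k) : zeros K (qdF (u • a)) = zeros K (qdF a) := by
  ext P
  induction P using Projectivization.ind with
  | h v hv =>
    rw [mem_qd, mem_qd]
    have h1 : qd (fun i => algebraMap k K ((u • a) i)) v =
        algebraMap k K u * qd (fun i => algebraMap k K (a i)) v := by
      simp only [qd, Pi.smul_apply, smul_eq_mul, map_mul]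
      ring
    rw [h1, mul_eq_zero, or_iff_right]
    rw [map_eq_zero]
    exact hu

/-- The coefficients of the linear form `v ↦ c (g v)`. -/
def sl {F : Type*} [CommRing F] (g : Matrix (Fin 3) (Fin 3) F) (c : Fin 3 → F) : Fin 3 → F :=
  Matrix.vecMul c g

theorem sb_map (g : Matrix (Fin 3) (Fin 3) k) (a : Fin 6 → k) :
    (fun i => algebraMap k K (sb g a i)) =
      sb (g.map (algebraMap k K)) (fun i => algebraMap k K (a i)) := by
  have h2 : algebraMap k K 2 = 2 := map_ofNat _ 2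
  funext i
  fin_cases i <;>
  simp [sb, qd, pl, Matrix.col_apply, h2]

theorem ev_sl (g : Matrix (Fin 3) (Fin 3) k) (c : Fin 3 → k) (v : Fin 3 → K) :
    algebraMap k K (sl g c 0) * v 0 + algebraMap k K (sl g c 1) * v 1 + algebraMap k K (sl g c 2) * v 2 =
    algebraMap k K (c 0) * ((g.map (algebraMap k K)).mulVec v) 0 +
      algebraMap k K (c 1) * ((g.map (algebraMap k K)).mulVec v) 1 +
      algebraMap k K (c 2) * ((g.map (algebraMap k K)).mulVec v) 2 := by
  simp only [sl, Matrix.vecMul, Matrix.mulVec, dotProduct, Fin.sum_univ_three, map_add, map_mul,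
    Matrix.map_apply]
  ring

end basic

section proj

variable {k : Type*} [Field k] [Fintype k] {K : Type*} [Field K] [Algebra k K]

theorem mulVec_frob (g : Matrix (Fin 3) (Fin 3) k) (v : Fin 3 → K) :
    (g.map (algebraMap k K)).mulVec (fun i => v i ^ Fintype.card k) =
      fun j => ((g.map (algebraMap k K)).mulVec v) j ^ Fintype.card k := by
  funext j
  simp only [Matrix.mulVec, dotProduct, Fin.sum_univ_three, Matrix.map_apply]
  rw [Ex.fr_add, Ex.fr_add, mul_pow, mul_pow, mul_pow, Ex.fr_alg, Ex.fr_alg, Ex.fr_alg]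

omit [Fintype k] in
theorem mulVec_smul' (g : Matrix (Fin 3) (Fin 3) k) (t : K) (v : Fin 3 → K) :
    (g.map (algebraMap k K)).mulVec (fun i => t * v i) =
      fun j => t ^ 1 * ((g.map (algebraMap k K)).mulVec v) j := by
  have h1 : (fun i => t * v i) = t • v := rfl
  rw [h1, Matrix.mulVec_smul, pow_one]
  rfl

omit [Fintype k] in
theorem mulVec_inv {g h : Matrix (Fin 3) (Fin 3) k} (hgh : g * h = 1) (v : Fin 3 → K) :
    (g.map (algebraMap k K)).mulVec ((h.map (algebraMap k K)).mulVec v) = v := by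
  rw [Matrix.mulVec_mulVec]
  have h1 : g.map (algebraMap k K) * h.map (algebraMap k K) = 1 := by
    rw [← Matrix.map_mul, hgh]
    exact Matrix.map_one _ (map_zero _) (map_one _)
  rw [h1, Matrix.one_mulVec]

omit [Fintype k] in
theorem mulVec_ne {g h : Matrix (Fin 3) (Fin 3) k} (hgh : g * h = 1) (v : Fin 3 → K) (hv : v ≠ 0) :
    (h.map (algebraMap k K)).mulVec v ≠ 0 := by
  intro h0
  apply hv
  rw [← mulVec_inv hgh v, h0, Matrix.mulVec_zero]

/-- The linear map `h` on the projective plane. -/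
noncomputable def pm (K : Type*) [Field K] [Algebra k K] {g h : Matrix (Fin 3) (Fin 3) k} (hgh : g * h = 1) :
    ℙ K (Fin 3 → K) → ℙ K (Fin 3 → K) :=
  pmap (fun v => (h.map (algebraMap k K)).mulVec v) 1 (mulVec_smul' h) (mulVec_ne hgh)

theorem pm_frob {g h : Matrix (Fin 3) (Fin 3) k} (hgh : g * h = 1) (P : ℙ K (Fin 3 → K)) :
    pm K hgh (frobP k K (Fin 3) P) = frobP k K (Fin 3) (pm K hgh P) :=
  pmap_frob _ _ _ _ (mulVec_frob h) P

omit [Fintype k] in
theorem pm_mk {g h : Matrix (Fin 3) (Fin 3) k} (hgh : g * h = 1) (v : Fin 3 → K) (hv : v ≠ 0) :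
    pm K hgh (Projectivization.mk K v hv) =
      Projectivization.mk K ((h.map (algebraMap k K)).mulVec v) (mulVec_ne hgh v hv) := pmap_mk _ _ _ _ _ _

omit [Fintype k] in
theorem pm_pm {g h : Matrix (Fin 3) (Fin 3) k} (hgh : g * h = 1) (hhg : h * g = 1)
    (P : ℙ K (Fin 3 → K)) : pm K hgh (pm K hhg P) = P := by
  induction P using Projectivization.ind with
  | h v hv =>
    rw [pm_mk, pm_mk]
    congr 1
    exact mulVec_inv hhg v

omit [Fintype k] in
theorem pm_inj {g h : Matrix (Fin 3) (Fin 3) k} (hgh : g * h = 1) : Injective (pm K hgh) := by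
  have hhg : h * g = 1 := mul_eq_one_comm.1 hgh
  intro P Q hPQ
  rw [← pm_pm hhg hgh P, hPQ, pm_pm hhg hgh Q]

omit [Fintype k] in
theorem pm_image_qd {g h : Matrix (Fin 3) (Fin 3) k} (hgh : g * h = 1) (a : Fin 6 → k) :
    pm K hgh '' zeros K (qdF a) = zeros K (qdF (sb g a)) := by
  have hhg : h * g = 1 := mul_eq_one_comm.1 hgh
  have key : ∀ P : ℙ K (Fin 3 → K), pm K hhg P ∈ zeros K (qdF a) ↔ P ∈ zeros K (qdF (sb g a)) := by
    intro P
    induction P using Projectivization.ind with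
    | h v hv => rw [pm_mk, mem_qd, mem_qd, sb_map, qd_sb]
  ext P
  constructor
  · rintro ⟨Q, hQ, rfl⟩
    rw [← key, pm_pm]
    exact hQ
  · intro hP
    exact ⟨pm K hhg P, (key P).2 hP, pm_pm hgh hhg P⟩

omit [Fintype k] in
theorem pm_image_ln {g h : Matrix (Fin 3) (Fin 3) k} (hgh : g * h = 1) (c : Fin 3 → k) :
    pm K hgh '' zeros K (lnF c) = zeros K (lnF (sl g c)) := by
  have hhg : h * g = 1 := mul_eq_one_comm.1 hgh
  have key : ∀ P : ℙ K (Fin 3 → K), pm K hhg P ∈ zeros K (lnF c) ↔ P ∈ zeros K (lnF (sl g c)) := by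
    intro P
    induction P using Projectivization.ind with
    | h v hv => rw [pm_mk, mem_ln, mem_ln, ev_sl]
  ext P
  constructor
  · rintro ⟨Q, hQ, rfl⟩
    rw [← key, pm_pm]
    exact hQ
  · intro hP
    exact ⟨pm K hhg P, (key P).2 hP, pm_pm hgh hhg P⟩

/-- The inverse zeta function of the projective line. -/
noncomputable def zp (k : Type*) [Fintype k] : PowerSeries ℤ :=
  (1 - PowerSeries.X) * (1 - PowerSeries.C (Fintype.card k : ℤ) * PowerSeries.X)

theorem eul_image {g h : Matrix (Fin 3) (Fin 3) k} (hgh : g * h = 1) {A : Set (ℙ K (Fin 3 → K))}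
    {Q : PowerSeries ℤ} (hA : IsEul (nOrb (frobP k K (Fin 3)) A) Q) :
    IsEul (nOrb (frobP k K (Fin 3)) (pm K hgh '' A)) Q :=
  hA.congr fun d _ => (nOrb_image (pm_frob hgh) (pm_inj hgh) A d).symm

theorem orb_image {g h : Matrix (Fin 3) (Fin 3) k} (hgh : g * h = 1) (P : ℙ K (Fin 3 → K)) :
    pm K hgh '' orb (frobP k K (Fin 3)) P = orb (frobP k K (Fin 3)) (pm K hgh P) := by
  ext Q
  constructor
  · rintro ⟨_, ⟨n, rfl⟩, rfl⟩
    exact ⟨n, (iter_comm (pm_frob hgh) P n).symm⟩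
  · rintro ⟨n, rfl⟩
    exact ⟨_, ⟨n, rfl⟩, iter_comm (pm_frob hgh) P n⟩

variable (k K) in
/-- The zeta functions of the line and the conics are those of the projective line, and each two of the curves meet
in one closed point, of degree `2`, `2`, `4`. -/
structure Core (c : Fin 3 → k) (a b : Fin 6 → k) : Prop where
  z0 : IsEul (nOrb (frobP k K (Fin 3)) (zeros K (lnF c))) (zp k)
  z1 : IsEul (nOrb (frobP k K (Fin 3)) (zeros K (qdF a))) (zp k)
  z2 : IsEul (nOrb (frobP k K (Fin 3)) (zeros K (qdF b))) (zp k)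
  m01 : ∃ P : ℙ K (Fin 3 → K), minimalPeriod (frobP k K (Fin 3)) P = 2 ∧
    zeros K (lnF c) ∩ zeros K (qdF a) = orb (frobP k K (Fin 3)) P
  m02 : ∃ P : ℙ K (Fin 3 → K), minimalPeriod (frobP k K (Fin 3)) P = 2 ∧
    zeros K (lnF c) ∩ zeros K (qdF b) = orb (frobP k K (Fin 3)) P
  m12 : ∃ P : ℙ K (Fin 3 → K), minimalPeriod (frobP k K (Fin 3)) P = 4 ∧
    zeros K (qdF a) ∩ zeros K (qdF b) = orb (frobP k K (Fin 3)) P

theorem Core.change {c : Fin 3 → k} {a b : Fin 6 → k} (hC : Core k K c a b)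
    {g : Matrix (Fin 3) (Fin 3) k} (hg : g.det ≠ 0) : Core k K (sl g c) (sb g a) (sb g b) := by
  have hgh : g * g⁻¹ = 1 := Matrix.mul_nonsing_inv g (isUnit_iff_ne_zero.2 hg)
  have hm : ∀ {A B : Set (ℙ K (Fin 3 → K))} {n : ℕ},
      (∃ P : ℙ K (Fin 3 → K), minimalPeriod (frobP k K (Fin 3)) P = n ∧
        A ∩ B = orb (frobP k K (Fin 3)) P) →
      ∃ P : ℙ K (Fin 3 → K), minimalPeriod (frobP k K (Fin 3)) P = n ∧
        (pm K hgh '' A) ∩ (pm K hgh '' B) = orb (frobP k K (Fin 3)) P := by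
    rintro A B n ⟨P, h1, h2⟩
    refine ⟨pm K hgh P, ?_, ?_⟩
    · rw [minimalPeriod_eq_of_inj (pm_frob hgh) (pm_inj hgh), h1]
    · rw [← Set.image_inter (pm_inj hgh), h2, orb_image]
  rw [show sl g c = sl g c from rfl]
  refine ⟨?_, ?_, ?_, ?_, ?_, ?_⟩
  · rw [← pm_image_ln hgh]; exact eul_image hgh hC.z0
  · rw [← pm_image_qd hgh]; exact eul_image hgh hC.z1
  · rw [← pm_image_qd hgh]; exact eul_image hgh hC.z2
  · rw [← pm_image_ln hgh, ← pm_image_qd hgh]; exact hm hC.m01
  · rw [← pm_image_ln hgh, ← pm_image_qd hgh]; exact hm hC.m02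
  · rw [← pm_image_qd hgh, ← pm_image_qd hgh]; exact hm hC.m12

theorem Core.smul {c : Fin 3 → k} {a b : Fin 6 → k} (hC : Core k K c a b) {u : k} (hu : u ≠ 0) :
    Core k K c (u • a) b := by
  obtain ⟨h0, h1, h2, h3, h4, h5⟩ := hC
  refine ⟨h0, ?_, h2, ?_, h4, ?_⟩
  · rw [zeros_smul hu]; exact h1
  · rw [zeros_smul hu]; exact h3
  · rw [zeros_smul hu]; exact h5

theorem zeros_st : zeros K (qdF (st k)) = zeros K (Ex.Cn k) := by
  ext P
  induction P using Projectivization.ind with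
  | h v hv =>
    rw [mem_qd, Ex.mem_zer Ex.hom_cn, Ex.ev_cn]
    have h1 : (fun i => algebraMap k K (st k i)) = st K := by
      funext i
      fin_cases i <;> simp [st]
    rw [h1, qd_st]

/-- Nondegenerate conics have the zeta function of the projective line. -/
theorem eul_conic [IsAlgClosed K] {b : Fin 6 → k} {g : Matrix (Fin 3) (Fin 3) k} {u : k} (hg : g.det ≠ 0)
    (hu : u ≠ 0) (hb : b = u • sb g (st k)) :
    IsEul (nOrb (frobP k K (Fin 3)) (zeros K (qdF b))) (zp k) := by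
  have hgh : g * g⁻¹ = 1 := Matrix.mul_nonsing_inv g (isUnit_iff_ne_zero.2 hg)
  rw [hb, zeros_smul hu, ← pm_image_qd hgh]
  apply eul_image hgh
  rw [zeros_st]
  exact Ex.conic_num

end proj

end Pool.Agent.K9h8.Lc
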