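import Pool.Agent.K9h8.Kum.Full2

/-!
# A line and two conics: coefficient vectors
-/

set_option autoImplicit false

namespace Pool.Agent.K9h8.Lc

/-- The value of the quadratic form with the coefficients `a`. -/
def qd {F : Type*} [CommRing F] (a : Fin 6 → F) (v : Fin 3 → F) : F :=
  a 0 * v 0 ^ 2 + a 1 * (v 0 * v 1) + a 2 * (v 0 * v 2) + a 3 * v 1 ^ 2 + a 4 * (v 1 * v 2) +
    a 5 * v 2 ^ 2

/-- The polar form. -/
def pl {F : Type*} [CommRing F] (a : Fin 6 → F) (v w : Fin 3 → F) : F :=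
  2 * a 0 * (v 0 * w 0) + a 1 * (v 0 * w 1 + v 1 * w 0) + a 2 * (v 0 * w 2 + v 2 * w 0) +
    2 * a 3 * (v 1 * w 1) + a 4 * (v 1 * w 2 + v 2 * w 1) + 2 * a 5 * (v 2 * w 2)

/-- The discriminant: half of the determinant of the matrix of the polar form. -/
def dsc {F : Type*} [CommRing F] (a : Fin 6 → F) : F :=
  4 * (a 0 * a 3 * a 5) + a 1 * a 2 * a 4 - a 0 * a 4 ^ 2 - a 3 * a 2 ^ 2 - a 5 * a 1 ^ 2

/-- The quadratic form `v ↦ qd a (g v)`. -/
def sb {F : Type*} [CommRing F] (g : Matrix (Fin 3) (Fin 3) F) (a : Fin 6 → F) : Fin 6 → F :=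
  ![qd a (g.col 0), pl a (g.col 0) (g.col 1), pl a (g.col 0) (g.col 2), qd a (g.col 1),
    pl a (g.col 1) (g.col 2), qd a (g.col 2)]

/-- The standard conic `v 1 ^ 2 - v 0 * v 2`. -/
def st (F : Type*) [CommRing F] : Fin 6 → F := ![0, 0, -1, 1, 0, 0]

theorem qd_sb {F : Type*} [CommRing F] (g : Matrix (Fin 3) (Fin 3) F) (a : Fin 6 → F) (v : Fin 3 → F) :
    qd (sb g a) v = qd a (g.mulVec v) := by
  simp only [qd, pl, sb, Matrix.mulVec, dotProduct, Fin.sum_univ_three, Matrix.cons_val_zero,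
    Matrix.cons_val_one, Matrix.cons_val, Matrix.col_apply]
  ring

theorem qd_st {F : Type*} [CommRing F] (v : Fin 3 → F) : qd (st F) v = v 1 ^ 2 - v 0 * v 2 := by
  simp only [qd, st, Matrix.cons_val_zero, Matrix.cons_val_one, Matrix.cons_val]
  ring

/-- The maximal ideals of `R` whose residue field is finite, of odd characteristic, with at least `B` elements, and
contains the `ℓ`-th roots of unity. -/
def Zl (R : Type) [CommRing R] (ℓ B : ℕ) : Set (Ideal R) :=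
  {m | m.IsMaximal ∧ Finite (R ⧸ m) ∧ B ≤ Nat.card (R ⧸ m) ∧ (2 : R) ∉ m ∧ ℓ ∣ Nat.card (R ⧸ m) - 1}

end Pool.Agent.K9h8.Lc
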