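import Pool.Agent.K9h8.Lc.Def
import Pool.Agent.K9h8.Kum.Ex

/-!
# The roots of an irreducible polynomial form a Frobenius orbit
-/

set_option autoImplicit false

namespace Pool.Agent.K9h8.Lc

open Polynomial Function Pool.Agent.K9h8.Kum IntermediateField
open scoped LinearAlgebra.Projectivization

variable {k : Type*} [Field k] [Fintype k] {K : Type*} [Field K] [Algebra k K] [IsAlgClosed K]

omit [IsAlgClosed K] in
theorem iter_fr (x : K) (n : ℕ) : (fun y : K => y ^ Fintype.card k)^[n] x = x ^ (Fintype.card k ^ n) := by
  induction n with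
  | zero => simp
  | succ n ih => rw [Function.iterate_succ_apply', ih, ← pow_mul, pow_succ]

omit [IsAlgClosed K] in
theorem fr_root {g : k[X]} {x : K} (hx : aeval x g = 0) : aeval (x ^ Fintype.card k) g = 0 := by
  have h := Polynomial.aeval_algHom_apply (FiniteField.frobeniusAlgHom k K) x g
  rw [hx, map_zero] at h
  exact h

omit [IsAlgClosed K] in
theorem fr_root_iter {g : k[X]} {x : K} (hx : aeval x g = 0) (n : ℕ) :
    aeval ((fun y : K => y ^ Fintype.card k)^[n] x) g = 0 := by
  induction n with
  | zero => exact hx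
  | succ n ih =>
    rw [Function.iterate_succ_apply']
    exact fr_root ih

theorem root_orbit {g : k[X]} (hg : Irreducible g) :
    ∃ θ : K, {x : K | aeval x g = 0} = orb (fun y : K => y ^ Fintype.card k) θ ∧
      minimalPeriod (fun y : K => y ^ Fintype.card k) θ = g.natDegree := by
  classical
  set q := Fintype.card k with hq
  have hq1 : 1 < q := Fintype.one_lt_card
  obtain ⟨θ, hθ⟩ := IsAlgClosed.exists_aeval_eq_zero K g
    (Polynomial.degree_pos_of_irreducible hg).ne'
  have hint : IsIntegral k θ := by
    rw [← isAlgebraic_iff_isIntegral]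
    exact ⟨g, hg.ne_zero, hθ⟩
  have hdeg : (minpoly k θ).natDegree = g.natDegree := by
    have h1 : minpoly k θ ∣ g := minpoly.dvd k θ hθ
    have h2 : Associated (minpoly k θ) g :=
      (minpoly.irreducible hint).associated_of_dvd hg h1
    exact natDegree_eq_of_degree_eq (degree_eq_degree_of_associated h2)
  set n := g.natDegree with hn
  have hn1 : 1 ≤ n := hg.natDegree_pos
  -- the field generated by the root
  haveI : FiniteDimensional k k⟮θ⟯ := adjoin.finiteDimensional hint
  haveI : Finite k⟮θ⟯ := Module.finite_of_finite k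
  letI := Fintype.ofFinite k⟮θ⟯
  have hcard : Fintype.card k⟮θ⟯ = q ^ n := by
    rw [Module.card_eq_pow_finrank (K := k) (V := k⟮θ⟯), adjoin.finrank hint, hdeg]
  have hall : ∀ x ∈ k⟮θ⟯, x ^ (q ^ n) = x := by
    intro x hx
    have h1 := FiniteField.pow_card (⟨x, hx⟩ : k⟮θ⟯)
    rw [hcard] at h1
    exact congrArg Subtype.val h1
  have hper : IsPeriodicPt (fun y : K => y ^ q) n θ := by
    show (fun y : K => y ^ q)^[n] θ = θ
    rw [iter_fr]
    exact hall θ (mem_adjoin_simple_self k θ)
  have hle : ∀ d : ℕ, 1 ≤ d → (fun y : K => y ^ q)^[d] θ = θ → n ≤ d := by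
    intro d hd h
    rw [iter_fr] at h
    -- the field of the solutions
    let L : IntermediateField k K :=
      { carrier := {x : K | x ^ (q ^ d) = x}
        mul_mem' := by
          intro a b ha hb
          show (a * b) ^ (q ^ d) = a * b
          rw [mul_pow, show a ^ (q ^ d) = a from ha, show b ^ (q ^ d) = b from hb]
        add_mem' := by
          intro a b ha hb
          show (a + b) ^ (q ^ d) = a + b
          have h3 : ∀ x : K, x ^ (q ^ d) = ((FiniteField.frobeniusAlgHom k K) : K → K)^[d] x := by
            intro x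
            exact (iter_fr x d).symm
          have h4 : ∀ (m : ℕ) (x y : K), ((FiniteField.frobeniusAlgHom k K) : K → K)^[m] (x + y) =
              ((FiniteField.frobeniusAlgHom k K) : K → K)^[m] x +
              ((FiniteField.frobeniusAlgHom k K) : K → K)^[m] y := by
            intro m
            induction m with
            | zero => intro x y; rfl
            | succ m ih =>
              intro x y
              rw [Function.iterate_succ_apply', Function.iterate_succ_apply',
                Function.iterate_succ_apply', ih, map_add]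
          rw [h3, h4, ← h3, ← h3, show a ^ (q ^ d) = a from ha, show b ^ (q ^ d) = b from hb]
        algebraMap_mem' := by
          intro r
          show (algebraMap k K r) ^ (q ^ d) = algebraMap k K r
          rw [← map_pow, FiniteField.pow_card_pow]
        inv_mem' := by
          intro a ha
          show (a⁻¹) ^ (q ^ d) = a⁻¹
          rw [inv_pow, show a ^ (q ^ d) = a from ha] }
    have h1 : k⟮θ⟯ ≤ L := by
      rw [adjoin_simple_le_iff]
      exact h
    have h2 : (k⟮θ⟯ : Set K) ⊆ {x : K | x ^ (q ^ d) = x} := h1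
    have hncard := ncard_fix (k := k) (K := K) hd
    have hfin : {x : K | x ^ (q ^ d) = x}.Finite := by
      apply Set.finite_of_ncard_ne_zero
      rw [hncard]
      exact pow_ne_zero _ (by omega)
    have h3 := Set.ncard_le_ncard h2 hfin
    rw [hncard] at h3
    have h4 : (k⟮θ⟯ : Set K).ncard = q ^ n := by
      rw [← hcard, ← Nat.card_eq_fintype_card]
      exact (Nat.card_coe_set_eq _).symm
    rw [h4] at h3
    exact (Nat.pow_le_pow_iff_right hq1).1 h3
  have hmin : minimalPeriod (fun y : K => y ^ q) θ = n := by
    apply le_antisymm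
    · exact hper.minimalPeriod_le hn1
    · exact hle _ (hper.minimalPeriod_pos hn1) (isPeriodicPt_minimalPeriod _ _)
  refine ⟨θ, ?_, hmin⟩
  symm
  have hfin : {x : K | aeval x g = 0}.Finite := by
    have h1 : {x : K | aeval x g = 0} = ((g.map (algebraMap k K)).roots.toFinset : Set K) := by
      ext x
      rw [Finset.mem_coe, Multiset.mem_toFinset, mem_roots (by
        rw [Ne, Polynomial.map_eq_zero]
        exact hg.ne_zero), IsRoot.def, eval_map]
      rfl
    rw [h1]
    exact Finset.finite_toSet _
  apply Set.eq_of_subset_of_ncard_le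
  · rintro _ ⟨m, rfl⟩
    exact fr_root_iter hθ m
  · rw [orb_card hn1 hmin]
    have h1 : {x : K | aeval x g = 0} = ((g.map (algebraMap k K)).roots.toFinset : Set K) := by
      ext x
      rw [Finset.mem_coe, Multiset.mem_toFinset, mem_roots (by
        rw [Ne, Polynomial.map_eq_zero]
        exact hg.ne_zero), IsRoot.def, eval_map]
      rfl
    rw [h1, Set.ncard_coe_finset]
    refine (Multiset.toFinset_card_le _).trans ((card_roots' _).trans ?_)
    rw [natDegree_map]
  · exact hfin

/-- The image of the roots of an irreducible polynomial in the projective plane. -/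
theorem orbit_of {g : k[X]} (hg : Irreducible g) (ψ : K → ℙ K (Fin 3 → K))
    (hψ : ∀ x, ψ (x ^ Fintype.card k) = frobP k K (Fin 3) (ψ x)) (hinj : Injective ψ)
    {A : Set (ℙ K (Fin 3 → K))} (hA : A = ψ '' {x | aeval x g = 0}) :
    ∃ P : ℙ K (Fin 3 → K), minimalPeriod (frobP k K (Fin 3)) P = g.natDegree ∧
      A = orb (frobP k K (Fin 3)) P := by
  obtain ⟨θ, h1, h2⟩ := root_orbit (K := K) hg
  refine ⟨ψ θ, ?_, ?_⟩
  · rw [minimalPeriod_eq_of_inj hψ hinj, h2]
  · rw [hA, h1]
    ext P
    constructor
    · rintro ⟨_, ⟨n, rfl⟩, rfl⟩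
      exact ⟨n, (iter_comm hψ θ n).symm⟩
    · rintro ⟨n, rfl⟩
      exact ⟨_, ⟨n, rfl⟩, iter_comm hψ θ n⟩

end Pool.Agent.K9h8.Lc
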