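import Mathlib

/-!
# Proportions in equidistributed sequences (as in Pool.Agent.X243.Gen.Main)
-/

set_option autoImplicit false
set_option linter.all false

namespace Pool.Agent.K9h8.Lc

open Filter Topology
open scoped Classical

/-- The proportion in a sequence of finite sets which is equidistributed modulo all the ideals of
finite index. -/
theorem tendsto_of_dens' {R : Type} [CommRing R] {ι : Type} [Fintype ι] (S : Set (ι → R))
    (h : ∀ η : ℝ, 0 < η → ∃ M : Ideal R, Finite (R ⧸ M) ∧
      (1 - η) * (Nat.card (R ⧸ M) : ℝ) ^ (Fintype.card ι) ≤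
        (({x : ι → R ⧸ M | ∀ y : ι → R, (∀ j, Ideal.Quotient.mk M (y j) = x j) → y ∈ S}).ncard : ℝ))
    (B : ℕ → Finset (ι → R)) (hB : ∀ n, (B n).Nonempty)
    (heq : ∀ M : Ideal R, Finite (R ⧸ M) → ∀ x : ι → R ⧸ M,
      Tendsto (fun n => (((B n).filter (fun y => ∀ j, Ideal.Quotient.mk M (y j) = x j)).card : ℝ) /
        ((B n).card : ℝ)) atTop (𝓝 (1 / (Nat.card (R ⧸ M) : ℝ) ^ (Fintype.card ι)))) :
    Tendsto (fun n => (((B n).filter (fun y => y ∈ S)).card : ℝ) / ((B n).card : ℝ)) atTop
      (𝓝 1) := by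
  have hpos : ∀ n, (0 : ℝ) < ((B n).card : ℝ) := fun n => by exact_mod_cast (hB n).card_pos
  have hle : ∀ n, (((B n).filter (fun y => y ∈ S)).card : ℝ) / ((B n).card : ℝ) ≤ 1 := by
    intro n
    rw [div_le_one (hpos n)]
    exact_mod_cast Finset.card_filter_le _ _
  rw [tendsto_order]
  refine ⟨fun a ha => ?_, fun a ha => ?_⟩
  · obtain ⟨M, hM, hd⟩ := h ((1 - a) / 2) (by linarith)
    haveI := hM
    haveI := Fintype.ofFinite (R ⧸ M)
    set T : ℝ := (Nat.card (R ⧸ M) : ℝ) ^ (Fintype.card ι) with hT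
    have hT0 : 0 < T := by
      have : 0 < Nat.card (R ⧸ M) := Nat.card_pos
      positivity
    set X : Finset (ι → R ⧸ M) := (Set.toFinite {x : ι → R ⧸ M | ∀ y : ι → R,
      (∀ j, Ideal.Quotient.mk M (y j) = x j) → y ∈ S}).toFinset with hX
    have hXc : (({x : ι → R ⧸ M | ∀ y : ι → R, (∀ j, Ideal.Quotient.mk M (y j) = x j) →
        y ∈ S}).ncard : ℝ) = (X.card : ℝ) := by
      rw [hX, Set.ncard_eq_toFinset_card]
    rw [hXc] at hd
    have hlim : Tendsto (fun n => ∑ x ∈ X,
        (((B n).filter (fun y => ∀ j, Ideal.Quotient.mk M (y j) = x j)).card : ℝ) /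
          ((B n).card : ℝ)) atTop (𝓝 (∑ x ∈ X, 1 / T)) :=
      tendsto_finset_sum _ fun x _ => heq M hM x
    have hval : a < ∑ x ∈ X, 1 / T := by
      rw [Finset.sum_const, nsmul_eq_mul, mul_one_div, lt_div_iff₀ hT0]
      nlinarith
    filter_upwards [(tendsto_order.1 hlim).1 a hval] with n hn
    refine hn.trans_le ?_
    rw [← Finset.sum_div]
    refine div_le_div_of_nonneg_right ?_ (hpos n).le
    have h1 : (X.biUnion fun x => (B n).filter (fun y => ∀ j, Ideal.Quotient.mk M (y j) = x j)) ⊆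
        (B n).filter (fun y => y ∈ S) := by
      intro y hy
      rw [Finset.mem_biUnion] at hy
      obtain ⟨x, hx, hy⟩ := hy
      rw [Finset.mem_filter] at hy ⊢
      rw [hX, Set.Finite.mem_toFinset] at hx
      exact ⟨hy.1, hx y hy.2⟩
    have h2 := Finset.card_le_card h1
    rw [Finset.card_biUnion (by
      intro x _ x' _ hne
      rw [Function.onFun, Finset.disjoint_left]
      intro y hy hy'
      rw [Finset.mem_filter] at hy hy'
      apply hne
      funext j
      rw [← hy.2 j, hy'.2 j])] at h2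
    exact_mod_cast h2
  · exact Eventually.of_forall fun n => (hle n).trans_lt ha

end Pool.Agent.K9h8.Lc
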