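import Pool.Agent.K9h8.Lc.Core

/-!
# A line, the standard conic and a second conic
-/

set_option autoImplicit false
set_option linter.all false

namespace Pool.Agent.K9h8.Lc

open Function Polynomial Pool.Agent.K9h8.Kum
open scoped LinearAlgebra.Projectivization

section basic

variable {k : Type*} [Field k] {K : Type*} [Field K] [Algebra k K]

/-- The restriction of a linear form to the standard conic. -/
noncomputable def p2 (c : Fin 3 → k) : k[X] := C (c 0) * X ^ 2 + C (c 1) * X + C (c 2)

/-- The restriction of a quadratic form to the standard conic. -/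
noncomputable def p4 (b : Fin 6 → k) : k[X] :=
  C (b 0) * X ^ 4 + C (b 1) * X ^ 3 + C (b 2 + b 3) * X ^ 2 + C (b 4) * X + C (b 5)

/-- The coefficients of the restriction of a quadratic form to a line. -/
def q0 (c : Fin 3 → k) (b : Fin 6 → k) : k := b 0 * c 1 ^ 2 - b 1 * c 0 * c 1 + b 3 * c 0 ^ 2
/-- The second coefficient. -/
def q1 (c : Fin 3 → k) (b : Fin 6 → k) : k :=
  2 * b 0 * c 1 * c 2 - b 1 * c 0 * c 2 - b 2 * c 0 * c 1 + b 4 * c 0 ^ 2
/-- The third coefficient. -/
def q2 (c : Fin 3 → k) (b : Fin 6 → k) : k := b 0 * c 2 ^ 2 - b 2 * c 0 * c 2 + b 5 * c 0 ^ 2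

/-- The discriminant of the restriction of a quadratic form to a line. -/
def dl (c : Fin 3 → k) (b : Fin 6 → k) : k := q1 c b ^ 2 - 4 * q0 c b * q2 c b

theorem irr_quad {A B D : k} (hD : ¬ IsSquare (B ^ 2 - 4 * A * D)) :
    Irreducible (C A * X ^ 2 + C B * X + C D) ∧ (C A * X ^ 2 + C B * X + C D).natDegree = 2 := by
  have hA : A ≠ 0 := by
    rintro rfl
    exact hD ⟨B, by ring⟩
  have hdeg := natDegree_quadratic (a := A) (b := B) (c := D) hA
  refine ⟨?_, hdeg⟩
  rw [Polynomial.irreducible_iff_roots_eq_zero_of_degree_le_three (by omega) (by omega)]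
  rw [Multiset.eq_zero_iff_forall_notMem]
  intro x hx
  rw [mem_roots', IsRoot.def] at hx
  have h1 : A * x ^ 2 + B * x + D = 0 := by
    simpa using hx.2
  apply hD
  refine ⟨2 * A * x + B, ?_⟩
  linear_combination (-4 * A) * h1

end basic

variable {k : Type*} [Field k] [Fintype k] {K : Type*} [Field K] [Algebra k K]

/-- A point with last coordinate `1`. -/
theorem vec_ne (x y : K) : (![x, y, 1] : Fin 3 → K) ≠ 0 := fun h => one_ne_zero (congrFun h 2)

theorem mk_eq_iff {x y x' y' : K} : Projectivization.mk K ![x, y, 1] (vec_ne x y) =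
    Projectivization.mk K ![x', y', 1] (vec_ne x' y') ↔ x = x' ∧ y = y' := by
  rw [Projectivization.mk_eq_mk_iff']
  constructor
  · rintro ⟨t, ht⟩
    have h2 : t * 1 = 1 := congrFun ht 2
    have ht1 : t = 1 := by rw [← h2, mul_one]
    subst ht1
    have h0 : (1 : K) * x' = x := congrFun ht 0
    have h1 : (1 : K) * y' = y := congrFun ht 1
    exact ⟨by rw [← h0, one_mul], by rw [← h1, one_mul]⟩
  · rintro ⟨rfl, rfl⟩
    exact ⟨1, one_smul _ _⟩

theorem mk_std (v : Fin 3 → K) (hv : v ≠ 0) (h2 : v 2 ≠ 0) : Projectivization.mk K v hv =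
    Projectivization.mk K ![v 0 / v 2, v 1 / v 2, 1] (vec_ne _ _) := by
  rw [Projectivization.mk_eq_mk_iff']
  refine ⟨v 2, ?_⟩
  funext i
  fin_cases i
  · show v 2 * (v 0 / v 2) = v 0
    field_simp
  · show v 2 * (v 1 / v 2) = v 1
    field_simp
  · show v 2 * 1 = v 2
    rw [mul_one]

theorem frob_vec (x y : K) : frobP k K (Fin 3) (Projectivization.mk K ![x, y, 1] (vec_ne x y)) =
    Projectivization.mk K ![x ^ Fintype.card k, y ^ Fintype.card k, 1] (vec_ne _ _) := by
  rw [frobP_mk]
  congr 1
  funext i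
  fin_cases i
  · rfl
  · rfl
  · exact one_pow _

/-- The parametrisation of the affine part of the standard conic. -/
noncomputable def psC (K : Type*) [Field K] (x : K) : ℙ K (Fin 3 → K) :=
  Projectivization.mk K ![x ^ 2, x, 1] (vec_ne _ _)

theorem psC_frob (x : K) : psC K (x ^ Fintype.card k) = frobP k K (Fin 3) (psC K x) := by
  unfold psC
  rw [frob_vec, mk_eq_iff]
  exact ⟨by rw [← pow_mul, ← pow_mul, mul_comm], rfl⟩

theorem psC_inj : Injective (psC K) := by
  intro x y h
  unfold psC at h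
  rw [mk_eq_iff] at h
  exact h.2

theorem mem_st_iff (v : Fin 3 → K) (hv : v ≠ 0) :
    Projectivization.mk K v hv ∈ zeros K (qdF (st k)) ↔ v 1 ^ 2 - v 0 * v 2 = 0 := by
  rw [zeros_st, Ex.mem_zer Ex.hom_cn, Ex.ev_cn]

theorem aeval_p2 (c : Fin 3 → k) (x : K) : aeval x (p2 c) =
    algebraMap k K (c 0) * x ^ 2 + algebraMap k K (c 1) * x + algebraMap k K (c 2) := by
  simp [p2]

theorem aeval_p4 (b : Fin 6 → k) (x : K) : aeval x (p4 b) =
    algebraMap k K (b 0) * x ^ 4 + algebraMap k K (b 1) * x ^ 3 +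
      (algebraMap k K (b 2) + algebraMap k K (b 3)) * x ^ 2 + algebraMap k K (b 4) * x +
      algebraMap k K (b 5) := by
  simp [p4]

theorem meet01 {c : Fin 3 → k} (hc0 : c 0 ≠ 0) :
    zeros K (lnF c) ∩ zeros K (qdF (st k)) = psC K '' {x : K | aeval x (p2 c) = 0} := by
  have hc0' : algebraMap k K (c 0) ≠ 0 := by
    rw [Ne, map_eq_zero]; exact hc0
  ext P
  constructor
  · rintro ⟨h1, h2⟩
    induction P using Projectivization.ind with
    | h v hv =>
      rw [mem_ln] at h1
      rw [mem_st_iff, sub_eq_zero] at h2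
      have hv2 : v 2 ≠ 0 := by
        intro hv2
        rw [hv2, mul_zero] at h2
        have hv1 := pow_eq_zero_iff two_ne_zero |>.1 h2
        rw [hv1, hv2, mul_zero, mul_zero, add_zero, add_zero] at h1
        have hv0 := (mul_eq_zero.1 h1).resolve_left hc0'
        apply hv
        funext i
        fin_cases i
        · exact hv0
        · exact hv1
        · exact hv2
      have h3 : v 0 / v 2 = (v 1 / v 2) ^ 2 := by
        field_simp
        exact h2.symm
      refine ⟨v 1 / v 2, ?_, ?_⟩
      · show aeval (v 1 / v 2) (p2 c) = 0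
        rw [aeval_p2, ← h3]
        field_simp
        linear_combination h1
      · rw [mk_std v hv hv2]
        unfold psC
        rw [mk_eq_iff]
        exact ⟨h3.symm, rfl⟩
  · rintro ⟨x, hx, rfl⟩
    have hx' : aeval x (p2 c) = 0 := hx
    rw [aeval_p2] at hx'
    constructor
    · unfold psC
      rw [mem_ln]
      show algebraMap k K (c 0) * x ^ 2 + algebraMap k K (c 1) * x + algebraMap k K (c 2) * 1 = 0
      linear_combination hx'
    · unfold psC
      rw [mem_st_iff]
      show x ^ 2 - x ^ 2 * 1 = 0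
      ring

theorem meet12 {b : Fin 6 → k} (hb0 : b 0 ≠ 0) :
    zeros K (qdF (st k)) ∩ zeros K (qdF b) = psC K '' {x : K | aeval x (p4 b) = 0} := by
  have hb0' : algebraMap k K (b 0) ≠ 0 := by
    rw [Ne, map_eq_zero]; exact hb0
  ext P
  constructor
  · rintro ⟨h2, h1⟩
    induction P using Projectivization.ind with
    | h v hv =>
      rw [mem_qd] at h1
      simp only [qd] at h1
      rw [mem_st_iff, sub_eq_zero] at h2
      have hv2 : v 2 ≠ 0 := by
        intro hv2
        rw [hv2, mul_zero] at h2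
        have hv1 := pow_eq_zero_iff two_ne_zero |>.1 h2
        rw [hv1, hv2] at h1
        have h1' : algebraMap k K (b 0) * v 0 ^ 2 = 0 := by linear_combination h1
        have hv0 := pow_eq_zero_iff two_ne_zero |>.1 ((mul_eq_zero.1 h1').resolve_left hb0')
        apply hv
        funext i
        fin_cases i
        · exact hv0
        · exact hv1
        · exact hv2
      have h3 : v 0 / v 2 = (v 1 / v 2) ^ 2 := by
        field_simp
        exact h2.symm
      refine ⟨v 1 / v 2, ?_, ?_⟩
      · show aeval (v 1 / v 2) (p4 b) = 0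
        rw [aeval_p4]
        have e4 : (v 1 / v 2) ^ 4 = (v 0 / v 2) ^ 2 := by rw [h3]; ring
        have e3 : (v 1 / v 2) ^ 3 = (v 0 / v 2) * (v 1 / v 2) := by rw [h3]; ring
        have e2 : (algebraMap k K (b 2) + algebraMap k K (b 3)) * (v 1 / v 2) ^ 2 =
            algebraMap k K (b 2) * (v 0 / v 2) + algebraMap k K (b 3) * (v 1 / v 2) ^ 2 := by
          rw [h3]; ring
        rw [e4, e3, e2]
        field_simp
        linear_combination h1
      · rw [mk_std v hv hv2]
        unfold psC
        rw [mk_eq_iff]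
        exact ⟨h3.symm, rfl⟩
  · rintro ⟨x, hx, rfl⟩
    have hx' : aeval x (p4 b) = 0 := hx
    rw [aeval_p4] at hx'
    constructor
    · unfold psC
      rw [mem_st_iff]
      show x ^ 2 - x ^ 2 * 1 = 0
      ring
    · unfold psC
      rw [mem_qd]
      show algebraMap k K (b 0) * (x ^ 2) ^ 2 + algebraMap k K (b 1) * (x ^ 2 * x) +
        algebraMap k K (b 2) * (x ^ 2 * 1) + algebraMap k K (b 3) * x ^ 2 +
        algebraMap k K (b 4) * (x * 1) + algebraMap k K (b 5) * 1 ^ 2 = 0
      linear_combination hx'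

/-- The parametrisation of the affine part of a line. -/
noncomputable def psL (K : Type*) [Field K] [Algebra k K] (c : Fin 3 → k) (x : K) : ℙ K (Fin 3 → K) :=
  Projectivization.mk K ![algebraMap k K (-(c 1 / c 0)) * x + algebraMap k K (-(c 2 / c 0)), x, 1]
    (vec_ne _ _)

theorem psL_frob (c : Fin 3 → k) (x : K) :
    psL K c (x ^ Fintype.card k) = frobP k K (Fin 3) (psL K c x) := by
  unfold psL
  rw [frob_vec, mk_eq_iff]
  refine ⟨?_, rfl⟩
  rw [Ex.fr_add, mul_pow, Ex.fr_alg, Ex.fr_alg]

theorem psL_inj (c : Fin 3 → k) : Injective (psL K c) := by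
  intro x y h
  unfold psL at h
  rw [mk_eq_iff] at h
  exact h.2

theorem meet02 {c : Fin 3 → k} (hc0 : c 0 ≠ 0) {b : Fin 6 → k} (hq : q0 c b ≠ 0) :
    zeros K (lnF c) ∩ zeros K (qdF b) =
      psL K c '' {x : K | aeval x (C (q0 c b) * X ^ 2 + C (q1 c b) * X + C (q2 c b)) = 0} := by
  have hc0' : algebraMap k K (c 0) ≠ 0 := by
    rw [Ne, map_eq_zero]; exact hc0
  have hq' : algebraMap k K (q0 c b) ≠ 0 := by
    rw [Ne, map_eq_zero]; exact hq
  have hev : ∀ x : K, aeval x (C (q0 c b) * X ^ 2 + C (q1 c b) * X + C (q2 c b)) =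
      algebraMap k K (q0 c b) * x ^ 2 + algebraMap k K (q1 c b) * x + algebraMap k K (q2 c b) := by
    intro x
    simp
  -- the restriction to the line
  have key : ∀ y z : K, algebraMap k K (c 0) ^ 2 * qd (fun i => algebraMap k K (b i))
      ![algebraMap k K (-(c 1 / c 0)) * y + algebraMap k K (-(c 2 / c 0)) * z, y, z] =
      algebraMap k K (q0 c b) * y ^ 2 + algebraMap k K (q1 c b) * (y * z) +
        algebraMap k K (q2 c b) * z ^ 2 := by
    intro y z
    simp only [qd, q0, q1, q2, map_sub, map_add, map_mul, map_pow, map_neg, map_div₀, map_ofNat,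
      Matrix.cons_val_zero, Matrix.cons_val_one, Matrix.cons_val]
    field_simp
    ring
  have hv0 : ∀ v : Fin 3 → K, algebraMap k K (c 0) * v 0 + algebraMap k K (c 1) * v 1 +
      algebraMap k K (c 2) * v 2 = 0 →
      v 0 = algebraMap k K (-(c 1 / c 0)) * v 1 + algebraMap k K (-(c 2 / c 0)) * v 2 := by
    intro v h
    rw [map_neg, map_neg, map_div₀, map_div₀]
    field_simp
    linear_combination h
  ext P
  constructor
  · rintro ⟨h1, h2⟩
    induction P using Projectivization.ind with
    | h v hv =>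
      rw [mem_ln] at h1
      rw [mem_qd] at h2
      have h3 := hv0 v h1
      have h4 := key (v 1) (v 2)
      have h5 : (![algebraMap k K (-(c 1 / c 0)) * v 1 + algebraMap k K (-(c 2 / c 0)) * v 2, v 1, v 2] :
          Fin 3 → K) = v := by
        funext i
        fin_cases i
        · exact h3.symm
        · rfl
        · rfl
      rw [h5, h2, mul_zero] at h4
      have hv2 : v 2 ≠ 0 := by
        intro hv2
        rw [hv2] at h4 h3
        have h6 : algebraMap k K (q0 c b) * v 1 ^ 2 = 0 := by linear_combination -h4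
        have hv1 := pow_eq_zero_iff two_ne_zero |>.1 ((mul_eq_zero.1 h6).resolve_left hq')
        rw [hv1, mul_zero, mul_zero, add_zero] at h3
        apply hv
        funext i
        fin_cases i
        · exact h3
        · exact hv1
        · exact hv2
      refine ⟨v 1 / v 2, ?_, ?_⟩
      · show aeval (v 1 / v 2) _ = 0
        rw [hev]
        field_simp
        linear_combination -h4
      · rw [mk_std v hv hv2]
        unfold psL
        rw [mk_eq_iff]
        refine ⟨?_, rfl⟩
        rw [h3]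
        field_simp
  · rintro ⟨x, hx, rfl⟩
    have hx' : aeval x (C (q0 c b) * X ^ 2 + C (q1 c b) * X + C (q2 c b)) = 0 := hx
    rw [hev] at hx'
    constructor
    · unfold psL
      rw [mem_ln]
      show algebraMap k K (c 0) * (algebraMap k K (-(c 1 / c 0)) * x + algebraMap k K (-(c 2 / c 0))) +
        algebraMap k K (c 1) * x + algebraMap k K (c 2) * 1 = 0
      rw [map_neg, map_neg, map_div₀, map_div₀]
      field_simp
      ring
    · unfold psL
      rw [mem_qd]
      have h4 := key x 1
      rw [mul_one] at h4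
      have h5 : algebraMap k K (c 0) ^ 2 * qd (fun i => algebraMap k K (b i))
        ![algebraMap k K (-(c 1 / c 0)) * x + algebraMap k K (-(c 2 / c 0)), x, 1] = 0 := by
        rw [h4]
        linear_combination hx'
      exact (mul_eq_zero.1 h5).resolve_left (pow_ne_zero _ hc0')

/-- The standard triples. -/
structure StdT (c : Fin 3 → k) (b : Fin 6 → k) : Prop where
  ic : Irreducible (p2 c)
  dc : (p2 c).natDegree = 2
  ib : Irreducible (p4 b)
  db : (p4 b).natDegree = 4
  sq : ¬ IsSquare (dl c b)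
  nd : dsc b ≠ 0

theorem natDegree_p2_lt {c : Fin 3 → k} (h : (p2 c).natDegree = 2) : c 0 ≠ 0 := by
  intro h0
  have h1 : (p2 c).coeff 2 = 0 := by
    simp [p2, h0]
  have h2 : (p2 c).leadingCoeff = 0 := by rw [leadingCoeff, h, h1]
  rw [leadingCoeff_eq_zero] at h2
  rw [h2, natDegree_zero] at h
  exact absurd h (by norm_num)

theorem natDegree_p4_lt {b : Fin 6 → k} (h : (p4 b).natDegree = 4) : b 0 ≠ 0 := by
  intro h0
  have h1 : (p4 b).coeff 4 = 0 := by
    simp only [p4, h0, coeff_add, coeff_C_mul, coeff_X_pow, coeff_X, coeff_C]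
    norm_num
  have h2 : (p4 b).leadingCoeff = 0 := by rw [leadingCoeff, h, h1]
  rw [leadingCoeff_eq_zero] at h2
  rw [h2, natDegree_zero] at h
  exact absurd h (by norm_num)

theorem StdT.core [IsAlgClosed K] {c : Fin 3 → k} {b : Fin 6 → k} (h : StdT c b)
    (hb : IsEul (nOrb (frobP k K (Fin 3)) (zeros K (qdF b))) (zp k)) : Core k K c (st k) b := by
  have hc0 := natDegree_p2_lt h.dc
  have hb0 := natDegree_p4_lt h.db
  obtain ⟨i2, d2⟩ := irr_quad (A := q0 c b) (B := q1 c b) (D := q2 c b) h.sq
  have hq : q0 c b ≠ 0 := by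
    intro h0
    apply h.sq
    exact ⟨q1 c b, by rw [dl, h0]; ring⟩
  refine ⟨Ex.line_num hc0 _ _, ?_, hb, ?_, ?_, ?_⟩
  · rw [zeros_st]
    exact Ex.conic_num
  · obtain ⟨P, h3, h4⟩ := orbit_of h.ic (psC K) psC_frob psC_inj (meet01 (K := K) hc0)
    exact ⟨P, by rw [h3, h.dc], h4⟩
  · obtain ⟨P, h3, h4⟩ := orbit_of i2 (psL K c) (psL_frob c) (psL_inj c) (meet02 (K := K) hc0 hq)
    exact ⟨P, by rw [h3, d2], h4⟩
  · obtain ⟨P, h3, h4⟩ := orbit_of h.ib (psC K) psC_frob psC_inj (meet12 (K := K) hb0)
    exact ⟨P, by rw [h3, h.db], h4⟩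

end Pool.Agent.K9h8.Lc
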