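import Pool.Agent.K9h8.Lc.Def
import Pool.Agent.X243.Gen.Dens

/-!
# Maximal ideals of finitely generated rings whose residue fields contain the `ℓ`-th roots of unity
-/

set_option autoImplicit false
set_option linter.all false

namespace Pool.Agent.K9h8.Lc

open PrimeSpectrum Polynomial Pool.Agent.X243.Gen

/-- Chevalley: the image of a basic open set contains a basic open set. -/
theorem open_image {A R : Type} [CommRing A] [IsDomain A] [CommRing R] [IsDomain R] (f : A →+* R)
    (hf : f.FinitePresentation) (hinj : Function.Injective f) {c : R} (hc : c ≠ 0) :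
    ∃ a : A, a ≠ 0 ∧ ∀ P : Ideal A, P.IsPrime → a ∉ P →
      ∃ Q : Ideal R, Q.IsPrime ∧ Q.comap f = P ∧ c ∉ Q := by
  have h1 := isConstructible_comap_image hf (isConstructible_basicOpen (R := R) (f := c))
  obtain ⟨S, hS⟩ := exists_constructibleSetData_iff.mpr h1
  have hbot : (⟨⊥, Ideal.isPrime_bot⟩ : PrimeSpectrum A) ∈ comap f '' (basicOpen c : Set (PrimeSpectrum R)) := by
    refine ⟨⟨⊥, Ideal.isPrime_bot⟩, ?_, ?_⟩
    · show c ∉ (⊥ : Ideal R)
      rw [Ideal.mem_bot]
      exact hc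
    · ext x
      show f x ∈ (⊥ : Ideal R) ↔ x ∈ (⊥ : Ideal A)
      rw [Ideal.mem_bot, Ideal.mem_bot, map_eq_zero_iff f hinj]
  rw [← hS, ConstructibleSetData.toSet, Set.mem_iUnion₂] at hbot
  obtain ⟨C, hC, hb1, hb2⟩ := hbot
  refine ⟨C.f, ?_, ?_⟩
  · intro h0
    apply hb2
    rw [mem_zeroLocus, Set.singleton_subset_iff]
    show C.f ∈ (⊥ : Ideal A)
    rw [h0]
    exact Ideal.zero_mem _
  · intro P hP haP
    have hmem : (⟨P, hP⟩ : PrimeSpectrum A) ∈ S.toSet := by
      rw [ConstructibleSetData.toSet, Set.mem_iUnion₂]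
      refine ⟨C, hC, ?_, ?_⟩
      · rw [mem_zeroLocus] at hb1 ⊢
        rintro x ⟨i, rfl⟩
        have h2 : C.g i ∈ (⊥ : Ideal A) := hb1 ⟨i, rfl⟩
        rw [Ideal.mem_bot] at h2
        show C.g i ∈ P
        rw [h2]
        exact Ideal.zero_mem _
      · rw [mem_zeroLocus, Set.singleton_subset_iff]
        exact haP
    rw [hS] at hmem
    obtain ⟨⟨Q, hQ⟩, hQ1, hQ2⟩ := hmem
    refine ⟨Q, hQ, ?_, hQ1⟩
    exact congrArg PrimeSpectrum.asIdeal hQ2

/-- Maximal ideals over maximal ideals. -/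
theorem max_over {A R : Type} [CommRing A] [IsDomain A] [CommRing R] [IsDomain R] [IsJacobsonRing R]
    (f : A →+* R) (hf : f.FinitePresentation) (hinj : Function.Injective f) {c : R} (hc : c ≠ 0) :
    ∃ a : A, a ≠ 0 ∧ ∀ P : Ideal A, P.IsMaximal → a ∉ P →
      ∃ m : Ideal R, m.IsMaximal ∧ m.comap f = P ∧ c ∉ m := by
  obtain ⟨a, ha, h⟩ := open_image f hf hinj hc
  refine ⟨a, ha, fun P hP haP => ?_⟩
  obtain ⟨Q, hQ, hQP, hcQ⟩ := h P hP.isPrime haP
  have hJ : IsJacobsonRing R := inferInstance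
  have h1 : c ∉ Q.jacobson := by
    rw [hJ.out hQ.isRadical]
    exact hcQ
  rw [Ideal.jacobson, Ideal.mem_sInf] at h1
  push Not at h1
  obtain ⟨m, ⟨hQm, hm⟩, hcm⟩ := h1
  refine ⟨m, hm, ?_, hcm⟩
  have h2 : P ≤ m.comap f := by
    rw [← hQP]
    exact Ideal.comap_mono hQm
  exact (hP.eq_of_le (Ideal.comap_ne_top f hm.ne_top) h2).symm

theorem card_over {A R : Type} [CommRing A] [CommRing R] (f : A →+* R) {P : Ideal A} {m : Ideal R}
    (hP : P.IsMaximal) (hm : m.IsMaximal) (h : m.comap f = P) (hfin : Finite (R ⧸ m)) :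
    Nat.card (A ⧸ P) - 1 ∣ Nat.card (R ⧸ m) - 1 ∧ Nat.card (A ⧸ P) ≤ Nat.card (R ⧸ m) := by
  letI : Field (A ⧸ P) := Ideal.Quotient.field P
  letI : Field (R ⧸ m) := Ideal.Quotient.field m
  let g : (A ⧸ P) →+* (R ⧸ m) := Ideal.quotientMap m f (by rw [h])
  have hg : Function.Injective g := g.injective
  haveI : Finite (A ⧸ P) := Finite.of_injective g hg
  refine ⟨?_, Nat.card_le_card_of_injective g hg⟩
  have h1 := Subgroup.card_dvd_of_injective (Units.map (g : (A ⧸ P) →* (R ⧸ m)))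
    (Units.map_injective hg)
  rwa [Nat.card_units, Nat.card_units] at h1

/-- There are maximal ideals in `Zl` which do not contain a given element. -/
theorem exists_avoid (R : Type) [CommRing R] [IsDomain R] [Algebra.FiniteType ℤ R]
    (hR : ¬ IsField R) (h2 : (2 : R) ≠ 0) {ℓ : ℕ} (hℓ : ℓ.Prime) (hℓR : (ℓ : R) ≠ 0) (B : ℕ)
    {s : R} (hs : s ≠ 0) : ∃ m ∈ Zl R ℓ B, s ∉ m := by
  haveI := jacobson_int
  haveI : IsJacobsonRing R := isJacobsonRing_of_finiteType (A := ℤ)
  have hc : 2 * s ≠ 0 := mul_ne_zero h2 hs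
  -- it is enough to find a maximal ideal of a subring
  have key : ∀ {A : Type} [CommRing A] [IsDomain A] (f : A →+* R), f.FinitePresentation →
      Function.Injective f → (∀ a : A, a ≠ 0 → ∃ P : Ideal A, P.IsMaximal ∧ a ∉ P ∧
        ℓ ∣ Nat.card (A ⧸ P) - 1 ∧ B ≤ Nat.card (A ⧸ P)) → ∃ m ∈ Zl R ℓ B, s ∉ m := by
    intro A _ _ f hf hinj hP
    obtain ⟨a, ha, h⟩ := max_over f hf hinj hc
    obtain ⟨P, hP1, hP2, hP3, hP4⟩ := hP a ha
    obtain ⟨m, hm1, hm2, hm3⟩ := h P hP1 hP2
    haveI := hm1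
    have hfin := residue_finite R m
    obtain ⟨h3, h4⟩ := card_over f hP1 hm1 hm2 hfin
    refine ⟨m, ⟨hm1, hfin, hP4.trans h4, ?_, hP3.trans h3⟩, ?_⟩
    · intro h5
      exact hm3 (m.mul_mem_right _ h5)
    · intro h5
      exact hm3 (m.mul_mem_left _ h5)
  by_cases hchar : ∃ p : ℕ, p.Prime ∧ (p : R) = 0
  · -- positive characteristic
    obtain ⟨p, hp, hp0⟩ := hchar
    haveI : Fact p.Prime := ⟨hp⟩
    haveI : CharP R p := (CharP.charP_iff_prime_eq_zero hp).2 hp0
    letI : Algebra (ZMod p) R := ZMod.algebra R p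
    have hpℓ : p ≠ ℓ := by
      rintro rfl
      exact hℓR hp0
    -- a transcendental element
    obtain ⟨t, ht0, htu⟩ : ∃ t : R, t ≠ 0 ∧ ¬ IsUnit t := by
      by_contra hcon
      push Not at hcon
      exact hR ⟨⟨0, 1, zero_ne_one⟩, mul_comm, fun {a} ha => by
        obtain ⟨u, hu⟩ := hcon a ha
        exact ⟨((u⁻¹ : Rˣ) : R), by rw [← hu]; exact Units.mul_inv u⟩⟩
    have htr : Transcendental (ZMod p) t := by
      intro h
      exact htu ((IsAlgebraic.isIntegral h).isUnit ht0)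
    have hinj : Function.Injective (aeval t : (ZMod p)[X] →ₐ[ZMod p] R) :=
      transcendental_iff_injective.1 htr
    have hft : ((aeval t : (ZMod p)[X] →ₐ[ZMod p] R) : (ZMod p)[X] →+* R).FiniteType := by
      have h3 : (((aeval t : (ZMod p)[X] →ₐ[ZMod p] R) : (ZMod p)[X] →+* R).comp
          (algebraMap ℤ (ZMod p)[X])).FiniteType := by
        have h4 : ((aeval t : (ZMod p)[X] →ₐ[ZMod p] R) : (ZMod p)[X] →+* R).comp
          (algebraMap ℤ (ZMod p)[X]) = algebraMap ℤ R := RingHom.ext_int _ _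
        rw [h4, RingHom.finiteType_algebraMap]
        infer_instance
      exact RingHom.FiniteType.of_comp_finiteType h3
    refine key ((aeval t : (ZMod p)[X] →ₐ[ZMod p] R) : (ZMod p)[X] →+* R)
      (RingHom.FinitePresentation.of_finiteType.1 hft) hinj ?_
    intro a ha
    -- a large field
    obtain ⟨n, hn⟩ : ∃ n : ℕ, n = (ℓ - 1) * (a.natDegree + B + 1) := ⟨_, rfl⟩
    have hℓ1 : 1 ≤ ℓ - 1 := by
      have := hℓ.two_le
      omega
    have hn1 : a.natDegree + B + 1 ≤ n := by
      rw [hn]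
      exact Nat.le_mul_of_pos_left _ hℓ1
    have hn0 : n ≠ 0 := by omega
    have hfinE : Module.finrank (ZMod p) (GaloisField p n) = n := GaloisField.finrank p hn0
    have hcardE : Nat.card (GaloisField p n) = p ^ n := GaloisField.card p n hn0
    haveI : FiniteDimensional (ZMod p) (GaloisField p n) := by
      apply FiniteDimensional.of_finrank_pos
      rw [hfinE]
      omega
    obtain ⟨θ, hθ⟩ := Field.exists_primitive_element (ZMod p) (GaloisField p n)
    have hθint : IsIntegral (ZMod p) θ := Algebra.IsIntegral.isIntegral θ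
    have hθdeg : (minpoly (ZMod p) θ).natDegree = n := by
      rw [← IntermediateField.adjoin.finrank hθint, hθ, IntermediateField.finrank_top', hfinE]
    have hθsurj : Function.Surjective (aeval θ : (ZMod p)[X] →ₐ[ZMod p] GaloisField p n) := by
      have h3 : Algebra.adjoin (ZMod p) {θ} = ⊤ := by
        have h4 := IntermediateField.adjoin_simple_toSubalgebra_of_isAlgebraic hθint.isAlgebraic
        rw [← h4, hθ]
        rfl
      rw [← AlgHom.range_eq_top, ← Algebra.adjoin_singleton_eq_range_aeval, h3]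
    refine ⟨RingHom.ker ((aeval θ : (ZMod p)[X] →ₐ[ZMod p] GaloisField p n) :
      (ZMod p)[X] →+* GaloisField p n), ?_, ?_, ?_⟩
    · exact RingHom.ker_isMaximal_of_surjective _ hθsurj
    · intro h3
      rw [RingHom.mem_ker] at h3
      have h3' : aeval θ a = 0 := h3
      have h4 := natDegree_le_of_dvd (minpoly.dvd (ZMod p) θ h3') ha
      rw [hθdeg] at h4
      omega
    · have h3 : Nat.card ((ZMod p)[X] ⧸ RingHom.ker ((aeval θ : (ZMod p)[X] →ₐ[ZMod p]
          GaloisField p n) : (ZMod p)[X] →+* GaloisField p n)) = p ^ n := by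
        rw [← hcardE]
        exact Nat.card_congr (RingHom.quotientKerEquivOfSurjective hθsurj).toEquiv
      rw [h3]
      constructor
      · have h4 : p ^ (ℓ - 1) ≡ 1 [MOD ℓ] := by
          have h5 : Nat.Coprime p ℓ := (Nat.coprime_primes hp hℓ).2 hpℓ
          have h6 := Nat.ModEq.pow_totient h5
          rwa [Nat.totient_prime hℓ] at h6
        have h5 : p ^ n ≡ 1 [MOD ℓ] := by
          rw [hn, pow_mul]
          have := h4.pow (a.natDegree + B + 1)
          rwa [one_pow] at this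
        have h6 : 1 ≤ p ^ n := Nat.one_le_pow _ _ hp.pos
        exact (Nat.modEq_iff_dvd' h6).1 h5.symm
      · have h4 : n < p ^ n := Nat.lt_pow_self hp.one_lt
        omega
  · -- characteristic zero
    push Not at hchar
    have hinj : Function.Injective (algebraMap ℤ R) := by
      rw [injective_iff_map_eq_zero]
      intro n hn
      by_contra hn0
      -- a prime factor
      obtain ⟨q, hq⟩ := CharP.exists R
      rcases CharP.char_is_prime_or_zero R q with hp | hp
      · exact hchar q hp (CharP.cast_eq_zero R q)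
      · subst hp
        haveI : CharZero R := CharP.charP_to_charZero R
        have h3 : ((n : ℤ) : R) = 0 := hn
        exact hn0 (by exact_mod_cast h3)
    have hft : (algebraMap ℤ R).FiniteType := by
      rw [RingHom.finiteType_algebraMap]
      infer_instance
    refine key (algebraMap ℤ R) (RingHom.FinitePresentation.of_finiteType.1 hft) hinj ?_
    intro a ha
    obtain ⟨p, hp, hpB, hp1⟩ := Nat.exists_prime_gt_modEq_one (a.natAbs + B) hℓ.ne_zero
    haveI : Fact p.Prime := ⟨hp⟩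
    have hcard : Nat.card (ℤ ⧸ Ideal.span {(p : ℤ)}) = p := by
      rw [Nat.card_congr (Int.quotientSpanNatEquivZMod p).toEquiv, Nat.card_zmod]
    refine ⟨Ideal.span {(p : ℤ)}, ?_, ?_, ?_, ?_⟩
    · exact PrincipalIdealRing.isMaximal_of_irreducible (Nat.prime_iff_prime_int.1 hp).irreducible
    · intro h3
      rw [Ideal.mem_span_singleton] at h3
      have h4 := Int.natAbs_dvd_natAbs.2 h3
      rw [Int.natAbs_natCast] at h4
      have h5 := Nat.le_of_dvd (Int.natAbs_pos.2 ha) h4
      omega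
    · rw [hcard]
      exact (Nat.modEq_iff_dvd' hp.one_lt.le).1 hp1.symm
    · rw [hcard]
      omega

theorem Zl_inf (R : Type) [CommRing R] [IsDomain R] [Algebra.FiniteType ℤ R]
    (hR : ¬ IsField R) (h2 : (2 : R) ≠ 0) {ℓ : ℕ} (hℓ : ℓ.Prime) (hℓR : (ℓ : R) ≠ 0) (B : ℕ) :
    (Zl R ℓ B).Infinite := by
  intro hfin
  have hne : ∀ m ∈ Zl R ℓ B, ∃ x ∈ m, x ≠ 0 := by
    intro m hm
    have h1 : m ≠ ⊥ := by
      rintro rfl
      exact hR (Ring.isField_iff_maximal_bot.2 hm.1)
    obtain ⟨x, hx, hx0⟩ := Submodule.exists_mem_ne_zero_of_ne_bot h1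
    exact ⟨x, hx, hx0⟩
  choose! x hx hx0 using hne
  obtain ⟨m, hm, hm'⟩ := exists_avoid R hR h2 hℓ hℓR B (s := ∏ m ∈ hfin.toFinset, x m)
    (Finset.prod_ne_zero_iff.2 fun m hm => hx0 m (hfin.mem_toFinset.1 hm))
  apply hm'
  rw [← Finset.mul_prod_erase _ _ (hfin.mem_toFinset.2 hm)]
  exact m.mul_mem_right _ (hx m hm)

theorem card_pow_of_mem {R : Type} [CommRing R] {m : Ideal R} [hm : m.IsMaximal] [Finite (R ⧸ m)]
    {r : ℕ} (hr : r.Prime) (h : (r : R) ∈ m) {y : Ideal R} (hy : (r : R) ∈ y) :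
    (Nat.card (R ⧸ m) : R) ∈ y := by
  letI : Field (R ⧸ m) := Ideal.Quotient.field m
  letI := Fintype.ofFinite (R ⧸ m)
  have h0 : ((r : ℕ) : R ⧸ m) = 0 := by
    rw [← map_natCast (Ideal.Quotient.mk m), Ideal.Quotient.eq_zero_iff_mem]
    exact h
  haveI : CharP (R ⧸ m) r := by
    haveI : Fact r.Prime := ⟨hr⟩
    exact (CharP.charP_iff_prime_eq_zero hr).2 h0
  obtain ⟨n, -, hn⟩ := FiniteField.card (R ⧸ m) r
  rw [Nat.card_eq_fintype_card, hn]
  push_cast
  exact Ideal.pow_mem_of_mem y hy _ n.pos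

/-- Two disjoint infinite sets of maximal ideals such that no prime number not zero in `R` is in an ideal
of the first and in an ideal of the second set. -/
theorem two_sets (R : Type) [CommRing R] [IsDomain R] [Algebra.FiniteType ℤ R]
    (hR : ¬ IsField R) (h2 : (2 : R) ≠ 0) {ℓ : ℕ} (hℓ : ℓ.Prime) (hℓR : (ℓ : R) ≠ 0) (B : ℕ) :
    ∃ Z : Bool → Set (Ideal R), (∀ s, (Z s).Infinite) ∧ (∀ s, Z s ⊆ Zl R ℓ B) ∧
      ∀ p ∈ Z false, ∀ q ∈ Z true, ∀ r : ℕ, r.Prime → (r : R) ≠ 0 → (r : R) ∈ p → (r : R) ∉ q := by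
  by_cases hchar : ∃ p : ℕ, p.Prime ∧ (p : R) = 0
  · -- positive characteristic
    obtain ⟨p, hp, hp0⟩ := hchar
    refine ⟨fun _ => Zl R ℓ B, fun _ => Zl_inf R hR h2 hℓ hℓR B, fun _ => subset_rfl, ?_⟩
    intro m hm q hq r hr hr0 h1 h3
    have hne : r ≠ p := by
      rintro rfl
      exact hr0 hp0
    have hcop : Nat.Coprime r p := (Nat.coprime_primes hr hp).2 hne
    have h4 : (1 : R) ∈ m := by
      have h5 := Nat.isCoprime_iff_coprime.2 hcop
      obtain ⟨u, v, huv⟩ := h5
      have h6 : ((u * r + v * p : ℤ) : R) = ((1 : ℤ) : R) := by rw [huv]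
      push_cast at h6
      rw [hp0, mul_zero, add_zero] at h6
      rw [← h6]
      exact m.mul_mem_left _ h1
    exact hm.1.ne_top ((Ideal.eq_top_iff_one m).2 h4)
  · have hcard : ∀ m ∈ Zl R ℓ B, (Nat.card (R ⧸ m) : R) ≠ 0 := by
      intro m hm h0
      haveI := hm.1
      haveI := hm.2.1
      letI : Field (R ⧸ m) := Ideal.Quotient.field m
      letI := Fintype.ofFinite (R ⧸ m)
      obtain ⟨r, hr⟩ := CharP.exists (R ⧸ m)
      haveI := hr
      have hp : r.Prime := by
        haveI : NeZero r := ⟨CharP.char_ne_zero_of_finite (R ⧸ m) r⟩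
        exact CharP.char_is_prime (R ⧸ m) r
      obtain ⟨n, -, hn⟩ := FiniteField.card (R ⧸ m) r
      rw [Nat.card_eq_fintype_card, hn] at h0
      push_cast at h0
      exact hchar ⟨r, hp, pow_eq_zero_iff n.ne_zero |>.1 h0⟩
    obtain ⟨f, hf, hr⟩ := exists_seq_of_forall_finset_exists (fun m : Ideal R => m ∈ Zl R ℓ B)
      (fun x y => (Nat.card (R ⧸ x) : R) ∉ y) (by
        intro s hs
        obtain ⟨m, hm, hm'⟩ := exists_avoid R hR h2 hℓ hℓR B (s := ∏ x ∈ s, (Nat.card (R ⧸ x) : R))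
          (Finset.prod_ne_zero_iff.2 fun x hx => hcard x (hs x hx))
        refine ⟨m, hm, fun x hx h => hm' ?_⟩
        rw [← Finset.mul_prod_erase _ _ hx]
        exact m.mul_mem_right _ h)
    have hself : ∀ m ∈ Zl R ℓ B, (Nat.card (R ⧸ m) : R) ∈ m := by
      intro m hm
      haveI := hm.2.1
      rw [← Ideal.Quotient.eq_zero_iff_mem, map_natCast]
      letI := Fintype.ofFinite (R ⧸ m)
      rw [Nat.card_eq_fintype_card]
      exact Nat.cast_card_eq_zero _
    have hinj : Function.Injective f := by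
      intro i j hij
      by_contra hne
      rcases lt_or_gt_of_ne hne with h | h
      · apply hr i j h
        rw [← hij]
        exact hself _ (hf i)
      · apply hr j i h
        rw [hij]
        exact hself _ (hf j)
    refine ⟨fun s => Set.range fun n : ℕ => f (2 * n + cond s 1 0), fun s => ?_, ?_, ?_⟩
    · apply Set.infinite_range_of_injective
      intro i j hij
      have := hinj hij
      omega
    · rintro s _ ⟨n, rfl⟩
      exact hf _
    · rintro _ ⟨i, rfl⟩ _ ⟨j, rfl⟩ r hrp - h1 h3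
      have hi := hf (2 * i + cond false 1 0)
      have hj := hf (2 * j + cond true 1 0)
      haveI := hi.1
      haveI := hi.2.1
      haveI := hj.1
      haveI := hj.2.1
      have hne : 2 * i + cond false 1 0 ≠ 2 * j + cond true 1 0 := by
        simp only [cond_false, cond_true]
        omega
      rcases lt_or_gt_of_ne hne with h | h
      · exact hr _ _ h (card_pow_of_mem hrp h1 h3)
      · exact hr _ _ h (card_pow_of_mem hrp h3 h1)

end Pool.Agent.K9h8.Lc
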